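import Mathlib

/-!
# The decision problem

Graphs are presented by the list of their vertices (natural numbers, in binary) and the list of
their edges (pairs of vertices).
-/

namespace Pool.Agent.H679R2

/-- The graph presented by a list of vertices and a list of pairs of vertices: its vertices are
the members of the first list, and two different vertices are adjacent when the second list
contains them as a pair, in one of the two orders. -/
def toGraph (I : List ℕ × List (ℕ × ℕ)) : SimpleGraph {v : ℕ // v ∈ I.1} where
  Adj u v := u ≠ v ∧ ((u.1, v.1) ∈ I.2 ∨ (v.1, u.1) ∈ I.2)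
  symm := ⟨fun _ _ h => ⟨h.1.symm, h.2.symm⟩⟩
  loopless := ⟨fun _ h => h.1 rfl⟩

/-- The presented graph has a Hamiltonian cycle. -/
def HasHamCycle (I : List ℕ × List (ℕ × ℕ)) : Prop :=
  ∃ a, ∃ p : (toGraph I).Walk a a, p.IsHamiltonianCycle

/-- The tree `H_j`: a path `p_0, ..., p_j` (the vertices `Sum.inl i`) with two pendant vertices
attached to `p_0` (the vertices `Sum.inr (false, _)`) and two pendant vertices attached to `p_j`
(the vertices `Sum.inr (true, _)`). -/
def Hj (j : ℕ) : SimpleGraph (Fin (j + 1) ⊕ Bool × Bool) where
  Adj
    | Sum.inl a, Sum.inl b => a.val + 1 = b.val ∨ b.val + 1 = a.val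
    | Sum.inl a, Sum.inr c => a.val = bif c.1 then j else 0
    | Sum.inr c, Sum.inl a => a.val = bif c.1 then j else 0
    | Sum.inr _, Sum.inr _ => False
  symm := ⟨by
    rintro (a | c) (b | d) h
    · exact h.symm
    · exact h
    · exact h
    · exact h⟩
  loopless := ⟨by
    rintro (a | c) h
    · simp at h
    · exact h⟩

end Pool.Agent.H679R2
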