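import Pool.Agent.H679R2.Oct.Graph
import Pool.Agent.H679R2.Oct.Defs

/-!
# The graphs `H_j`, and their absence from the graph of a system
-/

namespace Pool.Agent.H679R2

theorem nb_class : ∀ t : Fin 12, ((nb1 t).val < 8 ↔ t.val < 8) ∧ ((nb2 t).val < 8 ↔ t.val < 8) := by
  decide

theorem class_card : ∀ b : Bool,
    ((Finset.univ : Finset (Fin 12)).filter (fun t => decide (t.val < 8) = b)).card ≤ 8 := by
  decide

namespace Sys

variable {ι : Type*} (s : Sys ι)

theorem adj_inner (h : ℕ) (p : (ι × Fin 12) × Fin (h + 1)) (hp : p.2.val ≠ 0) :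
    ∃ a b, ∀ q, (s.G h).Adj p q → q = a ∨ q = b := by
  obtain ⟨q, i, hi⟩ := p
  by_cases hh' : i = h
  · refine ⟨(q, ⟨i - 1, by omega⟩), (s.M q, ⟨i, hi⟩), ?_⟩
    rintro ⟨r, j, hj⟩ (⟨h1, h2⟩ | ⟨h1, h2, h3⟩ | ⟨h1, h2, h3, h4⟩)
    · simp only [Prod.mk.injEq, Fin.mk.injEq] at h1 h2 hp ⊢
      exact Or.inl ⟨h1.symm, by omega⟩
    · simp only [Prod.mk.injEq, Fin.mk.injEq] at h1 h2 h3 hp ⊢
      exact Or.inr ⟨h1, by omega⟩
    · exact absurd h1 hp
  · refine ⟨(q, ⟨i - 1, by omega⟩), (q, ⟨(i + 1) % (h + 1), Nat.mod_lt _ (by omega)⟩), ?_⟩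
    rintro ⟨r, j, hj⟩ (⟨h1, h2⟩ | ⟨h1, h2, h3⟩ | ⟨h1, h2, h3, h4⟩)
    · simp only [Prod.mk.injEq, Fin.mk.injEq] at h1 h2 hp ⊢
      rcases h2 with h2 | h2
      · refine Or.inr ⟨h1.symm, ?_⟩
        rw [Nat.mod_eq_of_lt (by omega)]
        omega
      · exact Or.inl ⟨h1.symm, by omega⟩
    · exact absurd h2 hh'
    · exact absurd h1 hp

theorem level_zero (h : ℕ) (p a b c : (ι × Fin 12) × Fin (h + 1)) (ha : (s.G h).Adj p a)
    (hb : (s.G h).Adj p b) (hc : (s.G h).Adj p c) (hab : a ≠ b) (hac : a ≠ c) (hbc : b ≠ c) :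
    p.2.val = 0 := by
  by_contra hp
  obtain ⟨u, v, huv⟩ := s.adj_inner h p hp
  rcases huv a ha with rfl | rfl <;> rcases huv b hb with rfl | rfl <;>
    rcases huv c hc with rfl | rfl <;> simp_all

/-- No `H_j` with `j ≥ 6` is a subgraph of the graph of a system with long paths. -/
theorem free (h j : ℕ) (hj : 6 ≤ j) (hh : j ≤ h) : (Hj j).Free (s.G h) := by
  rintro ⟨φ⟩
  have hinj : Function.Injective φ := φ.injective
  have hadj : ∀ {u v}, (Hj j).Adj u v → (s.G h).Adj (φ u) (φ v) := fun huv => φ.toHom.map_adj huv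
  set P : ∀ i : ℕ, i < j + 1 → (ι × Fin 12) × Fin (h + 1) := fun i hi => φ (Sum.inl ⟨i, hi⟩) with hP
  have hPe : ∀ i i', i = i' → ∀ hi hi', P i hi = P i' hi' := by
    rintro i i' rfl hi hi'
    rfl
  have hPne : ∀ i i' hi hi', i ≠ i' → P i hi ≠ P i' hi' := fun i i' hi hi' hne he =>
    hne (by simpa using hinj he)
  have hPadj : ∀ i hi hi', (s.G h).Adj (P i hi) (P (i + 1) hi') := fun i hi hi' =>
    hadj (u := Sum.inl ⟨i, hi⟩) (v := Sum.inl ⟨i + 1, hi'⟩) (Or.inl rfl)
  have h0 : (P 0 (by omega)).2.val = 0 := by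
    refine s.level_zero h _ (P 1 (by omega)) (φ (Sum.inr (false, false)))
      (φ (Sum.inr (false, true))) (hPadj 0 _ _) (hadj rfl) (hadj rfl) ?_ ?_ ?_ <;>
      exact fun he => by simpa using hinj he
  have hjj : (P j (by omega)).2.val = 0 := by
    refine s.level_zero h _ (P (j - 1) (by omega)) (φ (Sum.inr (true, false)))
      (φ (Sum.inr (true, true))) ?_ (hadj rfl) (hadj rfl) ?_ ?_ ?_
    · refine hadj (u := Sum.inl ⟨j, by omega⟩) (v := Sum.inl ⟨j - 1, by omega⟩) (Or.inr ?_)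
      simp; omega
    all_goals exact fun he => by simpa using hinj he
  -- once the path leaves its cluster it never comes back
  have hstep : ∀ i (hi : i + 1 < j + 1) (p : ι × Fin 12) (m : ℕ) (hm : m + 1 < h + 1), m ≤ i →
      P (i + 1) hi = (p, ⟨m + 1, hm⟩) → P i (by omega) = (p, ⟨m, by omega⟩) →
      ∀ (hi' : i + 2 < j + 1), ∃ hm', P (i + 2) hi' = (p, ⟨m + 2, hm'⟩) := by
    intro i hi p m hm hmi h1 h2 hi'
    have h3 := hPadj (i + 1) hi hi'
    have h4 := hPne i (i + 2) (by omega) hi' (by omega)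
    rw [h1] at h3
    rw [h2] at h4
    refine ⟨by omega, ?_⟩
    change P (i + 2) hi' = _
    have h3 : (s.G h).Adj (p, ⟨m + 1, hm⟩) (P (i + 2) hi') := h3
    generalize P (i + 2) hi' = x at h3 h4
    obtain ⟨⟨k, t⟩, l, hl⟩ := x
    rcases h3 with ⟨h5, h6⟩ | ⟨h5, h6, h7⟩ | ⟨h5, h6, h7, h8⟩
    · simp only at h5 h6
      subst h5
      rcases h6 with h6 | h6
      · congr 2
        omega
      · refine absurd ?_ h4
        congr 2
        omega
    · simp only at h6
      omega
    · simp only at h5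
      omega
  have hQ : ∀ i (hi : i + 1 < j + 1), (P (i + 1) hi).2.val ≠ 0 → ∃ (p : ι × Fin 12) (m : ℕ)
      (hm : m + 1 < h + 1), m ≤ i ∧ P (i + 1) hi = (p, ⟨m + 1, hm⟩) ∧
        P i (by omega) = (p, ⟨m, by omega⟩) := by
    intro i
    induction i with
    | zero =>
      intro hi hl
      have h3 := hPadj 0 (by omega) hi
      change (s.G h).Adj (P 0 _) (P (0 + 1) hi) at h3
      generalize P (0 + 1) hi = x at h3 hl ⊢
      obtain ⟨y, hy⟩ : ∃ y, P 0 (by omega) = y := ⟨_, rfl⟩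
      rw [hy] at h0 h3
      obtain ⟨p, l, hl'⟩ := x
      obtain ⟨q, l', hl''⟩ := y
      simp only at h0 hl
      subst h0
      rcases h3 with ⟨h5, h6⟩ | ⟨h5, h6, h7⟩ | ⟨h5, h6, h7, h8⟩
      · simp only at h5 h6
        subst h5
        refine ⟨q, 0, by omega, le_rfl, ?_, hy⟩
        congr 2
        omega
      · simp only at h6
        omega
      · exact absurd h6 hl
    | succ i ih =>
      intro hi hl
      by_cases hl0 : (P (i + 1) (by omega)).2.val = 0
      · have h3 := hPadj (i + 1) (by omega) hi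
        change (s.G h).Adj (P (i + 1) _) (P (i + 1 + 1) hi) at h3
        generalize P (i + 1 + 1) hi = x at h3 hl ⊢
        obtain ⟨y, hy⟩ : ∃ y, P (i + 1) (by omega) = y := ⟨_, rfl⟩
        rw [hy] at hl0 h3
        obtain ⟨p, l, hl'⟩ := x
        obtain ⟨q, l', hl''⟩ := y
        simp only at hl0 hl
        subst hl0
        rcases h3 with ⟨h5, h6⟩ | ⟨h5, h6, h7⟩ | ⟨h5, h6, h7, h8⟩
        · simp only at h5 h6
          subst h5
          refine ⟨q, 0, by omega, by omega, ?_, hy⟩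
          congr 2
          omega
        · simp only at h6
          omega
        · exact absurd h6 hl
      · obtain ⟨p, m, hm, hmi, h1, h2⟩ := ih (by omega) hl0
        obtain ⟨hm', h3⟩ := hstep i (by omega) p m hm hmi h1 h2 hi
        exact ⟨p, m + 1, hm', by omega, h3, h1⟩
  have hlev : ∀ i (hi : i < j + 1), (P i hi).2.val = 0 := by
    intro i hi
    by_contra hl
    have hi0 : i ≠ 0 := by
      rintro rfl
      exact hl h0
    obtain ⟨i, rfl⟩ := Nat.exists_eq_succ_of_ne_zero hi0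
    -- from `i + 1` on all levels are positive
    have key : ∀ n (hn : i + 1 + n < j + 1), (P (i + 1 + n) hn).2.val ≠ 0 := by
      intro n
      induction n with
      | zero => exact fun _ => hl
      | succ n ih =>
        intro hn
        obtain ⟨p, m, hm, hmi, h1, h2⟩ := hQ (i + n) (by omega) (by
          rw [hPe (i + n + 1) (i + 1 + n) (by omega)]
          exact ih (by omega))
        obtain ⟨hm', h3⟩ := hstep (i + n) (by omega) p m hm hmi h1 h2 (by omega)
        rw [hPe (i + 1 + (n + 1)) (i + n + 2) (by omega) _ (by omega), h3]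
        simp
    have h5 := key (j - (i + 1)) (by omega)
    rw [hPe _ j (by omega) _ (by omega)] at h5
    exact h5 hjj
  -- all vertices of the path lie in one cluster
  obtain ⟨⟨⟨k, t₀⟩, l₀⟩, hk⟩ : ∃ x, x = P 0 (by omega) := ⟨_, rfl⟩
  set b : Bool := decide (t₀.val < 8) with hb
  set C : (ι × Fin 12) × Fin (h + 1) → Prop := fun x => x.1.1 = k ∧ x.2.val = 0 ∧
    decide (x.1.2.val < 8) = b with hC
  have hCadj : ∀ x y, C x → (s.G h).Adj x y → y.2.val = 0 → C y := by
    rintro ⟨⟨k', t⟩, l⟩ ⟨⟨k'', t'⟩, l'⟩ ⟨h1, h2, h3⟩ hxy hy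
    simp only at h1 h2 h3 hy
    subst h1
    rcases hxy with ⟨h5, h6⟩ | ⟨h5, h6, h7⟩ | ⟨h5, h6, h7, h8⟩
    · simp only at h6
      omega
    · simp only at h6
      omega
    · simp only at h7 h8
      subst h7
      refine ⟨rfl, hy, ?_⟩
      have := nb_class t
      rw [← h3]
      rcases h8 with h8 | h8 <;> subst h8 <;> simp [this]
  have hCP : ∀ i hi, C (P i hi) := by
    intro i
    induction i with
    | zero =>
      intro hi
      rw [← hk]
      refine ⟨rfl, ?_, rfl⟩
      rw [← hk] at h0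
      exact h0
    | succ i ih => exact fun hi => hCadj _ _ (ih (by omega)) (hPadj i _ _) (hlev _ _)
  -- one pendant vertex at each end also lies in the cluster
  have hpend : ∀ (x y z w : (ι × Fin 12) × Fin (h + 1)), C x → (s.G h).Adj x y →
      (s.G h).Adj x z → z ≠ y → (z.2.val ≠ 0) → (y.2.val ≠ 0) → False := by
    rintro ⟨q, l⟩ ⟨q', l'⟩ ⟨q'', l''⟩ w hx hxy hxz hzy hz hy
    have hl : l.val = 0 := hx.2.1
    simp only at hz hy
    rcases hxy with ⟨h5, h6⟩ | ⟨h5, h6, h7⟩ | ⟨h5, h6, h7, h8⟩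
    · rcases hxz with ⟨h5', h6'⟩ | ⟨h5', h6', h7'⟩ | ⟨h5', h6', h7', h8'⟩
      · simp only at h5 h5' h6 h6'
        subst h5 h5'
        exact hzy (by congr 1; ext; omega)
      · simp only at h6'
        omega
      · exact hz h6'
    · simp only at h6
      omega
    · exact hy h6
  have hpa : ∃ c, C (φ (Sum.inr (false, c))) := by
    have ha : ∀ c, (s.G h).Adj (P 0 (by omega)) (φ (Sum.inr (false, c))) := fun c => hadj rfl
    by_cases h1 : (φ (Sum.inr (false, false))).2.val = 0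
    · exact ⟨false, hCadj _ _ (hCP 0 _) (ha _) h1⟩
    by_cases h2 : (φ (Sum.inr (false, true))).2.val = 0
    · exact ⟨true, hCadj _ _ (hCP 0 _) (ha _) h2⟩
    exact (hpend _ _ _ (P 0 (by omega)) (hCP 0 (by omega)) (ha false) (ha true)
      (fun he => by simpa using hinj he) h2 h1).elim
  have hpb : ∃ c, C (φ (Sum.inr (true, c))) := by
    have ha : ∀ c, (s.G h).Adj (P j (by omega)) (φ (Sum.inr (true, c))) := fun c => hadj rfl
    by_cases h1 : (φ (Sum.inr (true, false))).2.val = 0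
    · exact ⟨false, hCadj _ _ (hCP j _) (ha _) h1⟩
    by_cases h2 : (φ (Sum.inr (true, true))).2.val = 0
    · exact ⟨true, hCadj _ _ (hCP j _) (ha _) h2⟩
    exact (hpend _ _ _ (P 0 (by omega)) (hCP j (by omega)) (ha false) (ha true)
      (fun he => by simpa using hinj he) h2 h1).elim
  obtain ⟨c, hc⟩ := hpa
  obtain ⟨d, hd⟩ := hpb
  -- pigeonhole
  set u : Fin (j + 1) ⊕ Bool → Fin (j + 1) ⊕ Bool × Bool :=
    Sum.elim Sum.inl (fun e => Sum.inr (e, bif e then d else c)) with hu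
  have huinj : Function.Injective u := by
    rintro (x | x) (y | y) hxy
    · simpa [hu] using hxy
    · simp [hu] at hxy
    · simp [hu] at hxy
    · simp only [hu, Sum.elim_inr, Sum.inr.injEq, Prod.mk.injEq] at hxy
      exact congrArg Sum.inr hxy.1
  have huC : ∀ x, C (φ (u x)) := by
    rintro (x | x)
    · exact hCP x.1 x.2
    · cases x
      · exact hc
      · exact hd
  set F : Finset (Fin 12) := Finset.univ.filter (fun t => decide (t.val < 8) = b) with hF
  have hcard : Fintype.card (Fin (j + 1) ⊕ Bool) ≤ F.card := by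
    rw [← Finset.card_univ]
    refine Finset.card_le_card_of_injOn (fun x => (φ (u x)).1.2) ?_ ?_
    · intro x _
      simp only [hF, Finset.coe_filter, Finset.mem_univ, true_and, Set.mem_ofPred_eq]
      exact (huC x).2.2
    · intro x _ y _ hxy
      refine huinj (hinj ?_)
      obtain ⟨h3, h4, -⟩ := huC x
      obtain ⟨h5, h6, -⟩ := huC y
      exact Prod.ext (Prod.ext (h3.trans h5.symm) hxy) (Fin.ext (h4.trans h6.symm))
  have := class_card b
  simp only [Fintype.card_sum, Fintype.card_fin, Fintype.card_bool] at hcard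
  rw [← hF] at this
  omega

end Sys

end Pool.Agent.H679R2
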