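import Pool.Agent.H679R2.Oct.Sys

/-!
# The subcubic graph of a system

Every terminal `p` is prolonged by a path `(p,0), (p,1), ..., (p,h)`; the end points of the paths
of `p` and `M p` are adjacent, and the vertices `(p,0)` form octagons and squares.
-/

namespace Pool.Agent.H679R2

namespace Sys

variable {ι : Type*} (s : Sys ι)

/-- The graph of a system. -/
def G (h : ℕ) : SimpleGraph ((ι × Fin 12) × Fin (h + 1)) where
  Adj p q := (p.1 = q.1 ∧ (p.2.val + 1 = q.2.val ∨ q.2.val + 1 = p.2.val)) ∨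
    (q.1 = s.M p.1 ∧ p.2.val = h ∧ q.2.val = h) ∨
    (p.2.val = 0 ∧ q.2.val = 0 ∧ p.1.1 = q.1.1 ∧ (q.1.2 = nb1 p.1.2 ∨ q.1.2 = nb2 p.1.2))
  symm := ⟨by
    rintro p q (⟨h1, h2⟩ | ⟨h1, h2, h3⟩ | ⟨h1, h2, h3, h4⟩)
    · exact Or.inl ⟨h1.symm, h2.symm⟩
    · exact Or.inr (Or.inl ⟨by rw [h1, s.M_invol], h3, h2⟩)
    · refine Or.inr (Or.inr ⟨h2, h1, h3.symm, ?_⟩)
      rcases h4 with h4 | h4
      · exact Or.inr (by rw [h4, nb2_nb1])
      · exact Or.inl (by rw [h4, nb1_nb2])⟩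
  loopless := ⟨by
    rintro p (⟨h1, h2⟩ | ⟨h1, h2, h3⟩ | ⟨h1, h2, h3, h4⟩)
    · omega
    · exact s.M_ne _ h1.symm
    · rcases h4 with h4 | h4
      · exact nb1_ne _ h4.symm
      · exact nb2_ne _ h4.symm⟩

/-- The subgraph of the states `y, z`. -/
def G' (h : ℕ) (y z : ι → Bool) : SimpleGraph ((ι × Fin 12) × Fin (h + 1)) where
  Adj p q := (p.1 = q.1 ∧ (p.2.val + 1 = q.2.val ∨ q.2.val + 1 = p.2.val)) ∨
    (q.1 = s.M p.1 ∧ p.2.val = h ∧ q.2.val = h) ∨
    (p.2.val = 0 ∧ q.2.val = 0 ∧ q.1 = S y z p.1)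
  symm := ⟨by
    rintro p q (⟨h1, h2⟩ | ⟨h1, h2, h3⟩ | ⟨h1, h2, h3⟩)
    · exact Or.inl ⟨h1.symm, h2.symm⟩
    · exact Or.inr (Or.inl ⟨by rw [h1, s.M_invol], h3, h2⟩)
    · exact Or.inr (Or.inr ⟨h2, h1, by rw [h3, S_invol]⟩)⟩
  loopless := ⟨by
    rintro p (⟨h1, h2⟩ | ⟨h1, h2, h3⟩ | ⟨h1, h2, h3⟩)
    · omega
    · exact s.M_ne _ h1.symm
    · exact S_ne _ _ _ h3.symm⟩

theorem G'_le (h : ℕ) (y z : ι → Bool) : s.G' h y z ≤ s.G h := by
  rintro p q (h1 | h1 | ⟨h1, h2, h3⟩)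
  · exact Or.inl h1
  · exact Or.inr (Or.inl h1)
  · refine Or.inr (Or.inr ⟨h1, h2, by rw [h3]; rfl, ?_⟩)
    rw [h3]
    exact sig_nb _ _ _

theorem G'_ncard (h : ℕ) (hh : 1 ≤ h) (y z : ι → Bool) (v : (ι × Fin 12) × Fin (h + 1)) :
    ((s.G' h y z).neighborSet v).ncard = 2 := by
  obtain ⟨p, i, hi⟩ := v
  by_cases h0 : i = 0
  · subst h0
    rw [show (s.G' h y z).neighborSet (p, ⟨0, hi⟩) =
      {(p, ⟨1, by omega⟩), (S y z p, ⟨0, hi⟩)} from ?_]
    · exact Set.ncard_pair (by simp)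
    · ext ⟨q, j, hj⟩
      simp only [SimpleGraph.mem_neighborSet, G', Set.mem_insert_iff, Set.mem_singleton_iff,
        Prod.mk.injEq, Fin.mk.injEq]
      constructor
      · rintro (⟨h1, h2⟩ | ⟨h1, h2, h3⟩ | ⟨h1, h2, h3⟩)
        · exact Or.inl ⟨h1.symm, by omega⟩
        · omega
        · exact Or.inr ⟨h3, h2⟩
      · rintro (⟨h1, h2⟩ | ⟨h1, h2⟩)
        · exact Or.inl ⟨h1.symm, by omega⟩
        · exact Or.inr (Or.inr ⟨trivial, h2, h1⟩)
  by_cases hh' : i = h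
  · subst hh'
    rw [show (s.G' i y z).neighborSet (p, ⟨i, hi⟩) =
      {(p, ⟨i - 1, by omega⟩), (s.M p, ⟨i, hi⟩)} from ?_]
    · exact Set.ncard_pair (by simp; omega)
    · ext ⟨q, j, hj⟩
      simp only [SimpleGraph.mem_neighborSet, G', Set.mem_insert_iff, Set.mem_singleton_iff,
        Prod.mk.injEq, Fin.mk.injEq]
      constructor
      · rintro (⟨h1, h2⟩ | ⟨h1, h2, h3⟩ | ⟨h1, h2, h3⟩)
        · exact Or.inl ⟨h1.symm, by omega⟩
        · exact Or.inr ⟨h1, h3⟩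
        · omega
      · rintro (⟨h1, h2⟩ | ⟨h1, h2⟩)
        · exact Or.inl ⟨h1.symm, by omega⟩
        · exact Or.inr (Or.inl ⟨h1, trivial, h2⟩)
  · rw [show (s.G' h y z).neighborSet (p, ⟨i, hi⟩) =
      {(p, ⟨i - 1, by omega⟩), (p, ⟨i + 1, by omega⟩)} from ?_]
    · exact Set.ncard_pair (by simp)
    · ext ⟨q, j, hj⟩
      simp only [SimpleGraph.mem_neighborSet, G', Set.mem_insert_iff, Set.mem_singleton_iff,
        Prod.mk.injEq, Fin.mk.injEq]
      constructor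
      · rintro (⟨h1, h2⟩ | ⟨h1, h2, h3⟩ | ⟨h1, h2, h3⟩)
        · rcases h2 with h2 | h2
          · exact Or.inr ⟨h1.symm, by omega⟩
          · exact Or.inl ⟨h1.symm, by omega⟩
        · omega
        · omega
      · rintro (⟨h1, h2⟩ | ⟨h1, h2⟩)
        · exact Or.inl ⟨h1.symm, by omega⟩
        · exact Or.inl ⟨h1.symm, by omega⟩

theorem G'_connected [Nonempty ι] (h : ℕ) (y z : ι → Bool)
    (hc : ∀ p q : ι × Fin 12, Conn s.M (S y z) p q) : (s.G' h y z).Connected := by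
  have hpath : ∀ p (i : ℕ) (hi : i < h + 1),
      (s.G' h y z).Reachable (p, ⟨0, by omega⟩) (p, ⟨i, hi⟩) := by
    intro p i
    induction i with
    | zero => exact fun hi => SimpleGraph.Reachable.refl _
    | succ i ih =>
      intro hi
      refine (ih (by omega)).trans (SimpleGraph.Adj.reachable ?_)
      exact Or.inl ⟨rfl, Or.inl rfl⟩
  have hM : ∀ p, (s.G' h y z).Reachable (p, ⟨0, by omega⟩) (s.M p, ⟨0, by omega⟩) := fun p =>
    ((hpath p h (by omega)).trans (SimpleGraph.Adj.reachable (Or.inr (Or.inl ⟨rfl, rfl, rfl⟩)))).trans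
      (hpath (s.M p) h (by omega)).symm
  have hS : ∀ p, (s.G' h y z).Reachable (p, ⟨0, by omega⟩) (S y z p, ⟨0, by omega⟩) := fun p =>
    SimpleGraph.Adj.reachable (Or.inr (Or.inr ⟨rfl, rfl, rfl⟩))
  have h0 : ∀ p q, Conn s.M (S y z) p q →
      (s.G' h y z).Reachable (p, ⟨0, by omega⟩) (q, ⟨0, by omega⟩) := by
    intro p q hpq
    induction hpq with
    | rel x y hxy =>
      rcases hxy with rfl | rfl
      · exact hM x
      · exact hS x
    | refl x => exact SimpleGraph.Reachable.refl _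
    | symm x y _ ih => exact ih.symm
    | trans x y z _ _ ih ih' => exact ih.trans ih'
  have : Nonempty ((ι × Fin 12) × Fin (h + 1)) :=
    ⟨((Classical.arbitrary ι, 0), 0)⟩
  refine ⟨?_⟩
  rintro ⟨p, i, hi⟩ ⟨q, j, hj⟩
  exact ((hpath p i hi).symm.trans (h0 p q (hc p q))).trans (hpath q j hj)

/-- From consistent values satisfying all clauses to a Hamiltonian cycle. -/
theorem exists_ham [Fintype ι] [DecidableEq ι] [Nonempty ι] (h : ℕ) (hh : 1 ≤ h) (y : ι → Bool)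
    (hβ : ∀ k, (y (s.β k) == s.sg (s.β k)) = (y k == s.sg k))
    (hα : ∀ k, ∃ j, y j = true ∧ ∃ n : ℕ, (s.α^[n]) (s.α j) = k)
    (hγ : ∀ j k, ∃ n : ℕ, (s.γ^[n]) j = k) :
    ∃ a, ∃ p : (s.G h).Walk a a, p.IsHamiltonianCycle := by
  obtain ⟨z, hz⟩ := s.exists_conn y hβ hα hγ
  exact exists_hamCycle (s.G'_le h y z) (s.G'_ncard h hh y z) (s.G'_connected h y z hz)

/-- From a Hamiltonian cycle to consistent values satisfying all clauses. -/
theorem of_ham [DecidableEq ι] (h : ℕ) (hh : 1 ≤ h)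
    {a} {p : (s.G h).Walk a a} (hp : p.IsHamiltonianCycle) :
    ∃ y : ι → Bool, (∀ k, (y k == s.sg k) = true → (y (s.β k) == s.sg (s.β k)) = true) ∧
      ∀ k, ∃ n : ℤ, y ((s.α ^ n) k) = true := by
  classical
  obtain ⟨E, hEs, hEG, hE2, hEc⟩ := of_hamCycle hp
  -- inner vertices of the paths
  have hin : ∀ q w, q.2.val ≠ 0 → (s.G h).Adj q w → E q w := by
    rintro ⟨q, i, hi⟩ w h0 hw
    obtain ⟨b, c, hbc⟩ : ∃ b c, ∀ w, (s.G h).Adj (q, ⟨i, hi⟩) w → w = b ∨ w = c := by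
      by_cases hh' : i = h
      · refine ⟨(q, ⟨i - 1, by omega⟩), (s.M q, ⟨i, hi⟩), ?_⟩
        rintro ⟨r, j, hj⟩ (⟨h1, h2⟩ | ⟨h1, h2, h3⟩ | ⟨h1, h2, h3, h4⟩)
        · simp only [Prod.mk.injEq, Fin.mk.injEq] at h1 h2 h0 ⊢
          exact Or.inl ⟨h1.symm, by omega⟩
        · simp only [Prod.mk.injEq, Fin.mk.injEq] at h1 h2 h3 h0 ⊢
          exact Or.inr ⟨h1, by omega⟩
        · exact absurd h1 h0
      · refine ⟨(q, ⟨i - 1, by omega⟩), (q, ⟨i + 1, by omega⟩), ?_⟩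
        rintro ⟨r, j, hj⟩ (⟨h1, h2⟩ | ⟨h1, h2, h3⟩ | ⟨h1, h2, h3, h4⟩)
        · simp only [Prod.mk.injEq, Fin.mk.injEq] at h1 h2 h0 ⊢
          rcases h2 with h2 | h2
          · exact Or.inr ⟨h1.symm, by omega⟩
          · exact Or.inl ⟨h1.symm, by omega⟩
        · exact absurd h2 hh'
        · exact absurd h1 h0
    have hsub : {w | E (q, ⟨i, hi⟩) w} ⊆ {b, c} := fun w hw => hbc w (hEG _ _ hw)
    have heq := Set.eq_of_subset_of_ncard_le hsub (by
      rw [hE2]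
      exact (Set.ncard_insert_le _ _).trans (by simp)) (Set.toFinite _)
    have : w ∈ {w | E (q, ⟨i, hi⟩) w} := by
      rw [heq]
      exact hbc w hw
    exact this
  -- terminals
  set e : ι → Fin 12 → Prop := fun k t => E ((k, t), 0) ((k, nb1 t), 0) with he
  have hexit : ∀ q, E (q, 0) (q, ⟨1, by omega⟩) := fun q =>
    hEs _ _ (hin _ _ (by simp) (Or.inl ⟨rfl, Or.inr rfl⟩))
  have hxor : ∀ k t, e k (nb2 t) ↔ ¬ e k t := by
    intro k t
    have h1 : E ((k, t), 0) ((k, nb2 t), 0) ↔ e k (nb2 t) := by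
      rw [he]
      simp only [nb1_nb2]
      exact ⟨hEs _ _, hEs _ _⟩
    rw [← h1]
    have hset : {w | E ((k, t), 0) w} ⊆
        {((k, t), ⟨1, by omega⟩), ((k, nb1 t), 0), ((k, nb2 t), 0)} := by
      rintro ⟨⟨k', t'⟩, j, hj⟩ hw
      rcases hEG _ _ hw with ⟨h1, h2⟩ | ⟨h1, h2, h3⟩ | ⟨h1, h2, h3, h4⟩
      · simp at h1 h2 ⊢
        exact Or.inl ⟨⟨h1.1.symm, h1.2.symm⟩, by omega⟩
      · simp at h2
        omega
      · simp at h1 h2 h3 h4 ⊢
        subst h2 h3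
        rcases h4 with h4 | h4
        · subst h4
          exact Or.inr (Or.inl ⟨⟨rfl, rfl⟩, rfl⟩)
        · subst h4
          exact Or.inr (Or.inr ⟨⟨rfl, rfl⟩, rfl⟩)
    have h2 := hE2 ((k, t), 0)
    constructor
    · intro hb ha
      have : ({((k, t), ⟨1, by omega⟩), ((k, nb1 t), 0), ((k, nb2 t), 0)} :
          Set ((ι × Fin 12) × Fin (h + 1))) ⊆ {w | E ((k, t), 0) w} := by
        rintro w (rfl | rfl | rfl)
        · exact hexit _
        · exact ha
        · exact hb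
      have h3 := Set.ncard_le_ncard this (Set.toFinite _ |>.subset hset)
      rw [h2, Set.ncard_insert_of_notMem, Set.ncard_pair] at h3
      · omega
      · simp [nb_ne]
      · simp
    · intro ha
      by_contra hb
      have : {w | E ((k, t), 0) w} ⊆ {((k, t), ⟨1, by omega⟩)} := by
        intro w hw
        rcases hset hw with rfl | rfl | rfl
        · rfl
        · exact absurd hw ha
        · exact absurd hw hb
      have h3 := Set.ncard_le_ncard this (Set.toFinite _)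
      rw [h2, Set.ncard_singleton] at h3
      omega
  -- closed sets of terminals
  have hcl : ∀ L : Set (ι × Fin 12), L.Nonempty → (∀ q ∈ L, s.M q ∈ L) →
      (∀ q ∈ L, (e q.1 q.2 → (q.1, nb1 q.2) ∈ L) ∧ (e q.1 (nb2 q.2) → (q.1, nb2 q.2) ∈ L)) →
      ∀ q, q ∈ L := by
    rintro L ⟨q₀, hq₀⟩ hLM hLS q
    have hW := hEc {w | w.1 ∈ L} ⟨(q₀, 0), hq₀⟩ (by
      rintro ⟨v, i⟩ hv ⟨w, j⟩ hvw
      simp only [Set.mem_ofPred_eq] at hv ⊢
      rcases hEG _ _ hvw with ⟨h1, h2⟩ | ⟨h1, h2, h3⟩ | ⟨h1, h2, h3, h4⟩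
      · simp only at h1
        rwa [← h1]
      · simp only at h1
        rw [h1]
        exact hLM _ hv
      · simp only at h1 h2 h3 h4
        obtain ⟨k, t⟩ := v
        obtain ⟨k', t'⟩ := w
        simp only at h3 h4
        subst h3
        have hi : i = 0 := Fin.ext h1
        have hj : j = 0 := Fin.ext h2
        subst hi hj
        rcases h4 with h4 | h4
        · subst h4
          exact (hLS _ hv).1 hvw
        · subst h4
          refine (hLS _ hv).2 ?_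
          simp only [he, nb1_nb2]
          exact hEs _ _ hvw)
    have : (q, (0 : Fin (h + 1))) ∈ {w : (ι × Fin 12) × Fin (h + 1) | w.1 ∈ L} := by
      rw [hW]
      exact Set.mem_univ _
    exact this
  -- the states of the octagons
  set y : ι → Bool := fun k => decide (e k 1) with hy
  have hst : ∀ k, (e k 0 ↔ y k = false) ∧ (e k 1 ↔ y k = true) ∧ (e k 2 ↔ y k = false) ∧
      (e k 3 ↔ y k = true) ∧ (e k 4 ↔ y k = false) ∧ (e k 5 ↔ y k = true) ∧
      (e k 6 ↔ y k = false) ∧ (e k 7 ↔ y k = true) := by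
    intro k
    have h1 := hxor k 1
    have h2 := hxor k 2
    have h3 := hxor k 3
    have h4 := hxor k 4
    have h5 := hxor k 5
    have h6 := hxor k 6
    have h7 := hxor k 7
    simp only [nb2] at h1 h2 h3 h4 h5 h6 h7
    simp only [hy, decide_eq_true_eq, decide_eq_false_iff_not]
    tauto
  have hT0 : ∀ k, (e k 2 ↔ y k = false) := fun k => (hst k).2.2.1
  refine ⟨y, fun k hk => ?_, fun k => ?_⟩
  · by_contra hk'
    rw [Bool.not_eq_true] at hk'
    have hopen : ∀ (k : ι) (b : Bool), (y k = b → ∀ t, (t = T0 b ∨ t = T1 b) →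
        (e k t → nb1 t = T0 b ∨ nb1 t = T1 b) ∧ (e k (nb2 t) → nb2 t = T0 b ∨ nb2 t = T1 b)) := by
      intro k b hb t ht
      obtain ⟨h0, h1, h2, h3, h4, h5, h6, h7⟩ := hst k
      subst hb
      cases hyk : y k <;> rw [hyk] at ht h0 h1 h2 h3 h4 h5 h6 h7 <;>
        simp only [T0, T1, cond_true, cond_false] at ht ⊢ <;> rcases ht with rfl | rfl <;>
        simp only [nb1, nb2] <;> simp_all
    set L : Set (ι × Fin 12) := {(k, T0 (s.sg k)), (k, T1 (s.sg k)), (s.β k, T0 (!s.sg (s.β k))),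
      (s.β k, T1 (!s.sg (s.β k)))} with hL
    have hmem := hcl L ⟨_, Or.inl rfl⟩ (by
      rintro q (rfl | rfl | rfl | rfl)
      · rw [M_T0]; exact Or.inr (Or.inr (Or.inl rfl))
      · rw [M_T1]; exact Or.inr (Or.inr (Or.inr rfl))
      · rw [M_F0, Equiv.symm_apply_apply]; exact Or.inl rfl
      · rw [M_F1, Equiv.symm_apply_apply]; exact Or.inr (Or.inl rfl)) (by
      have hyk : y k = s.sg k := by simpa using hk
      have hyk' : y (s.β k) = !s.sg (s.β k) := by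
        revert hk'
        cases y (s.β k) <;> cases s.sg (s.β k) <;> simp
      have hm1 : ∀ t, t = T0 (s.sg k) ∨ t = T1 (s.sg k) → (k, t) ∈ L := by
        rintro t (rfl | rfl)
        · exact Or.inl rfl
        · exact Or.inr (Or.inl rfl)
      have hm2 : ∀ t, t = T0 (!s.sg (s.β k)) ∨ t = T1 (!s.sg (s.β k)) → (s.β k, t) ∈ L := by
        rintro t (rfl | rfl)
        · exact Or.inr (Or.inr (Or.inl rfl))
        · exact Or.inr (Or.inr (Or.inr rfl))
      rintro q (rfl | rfl | rfl | rfl)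
      · obtain ⟨ha, hb⟩ := hopen k _ hyk _ (Or.inl rfl)
        exact ⟨fun h => hm1 _ (ha h), fun h => hm1 _ (hb h)⟩
      · obtain ⟨ha, hb⟩ := hopen k _ hyk _ (Or.inr rfl)
        exact ⟨fun h => hm1 _ (ha h), fun h => hm1 _ (hb h)⟩
      · obtain ⟨ha, hb⟩ := hopen (s.β k) _ hyk' _ (Or.inl rfl)
        exact ⟨fun h => hm2 _ (ha h), fun h => hm2 _ (hb h)⟩
      · obtain ⟨ha, hb⟩ := hopen (s.β k) _ hyk' _ (Or.inr rfl)
        exact ⟨fun h => hm2 _ (ha h), fun h => hm2 _ (hb h)⟩) (k, 2)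
    have hT : ∀ b, (2 : Fin 12) ≠ T0 b ∧ (2 : Fin 12) ≠ T1 b := by decide
    rcases hmem with h1 | h1 | h1 | h1
    · exact (hT _).1 (congrArg Prod.snd h1)
    · exact (hT _).2 (congrArg Prod.snd h1)
    · exact (hT _).1 (congrArg Prod.snd h1)
    · exact (hT _).2 (congrArg Prod.snd h1)
  · by_contra hk
    have hk : ∀ n : ℤ, y ((s.α ^ n) k) = false := fun n => by
      have := fun h => hk ⟨n, h⟩
      simpa using this
    set L : Set (ι × Fin 12) := {q | ∃ n : ℤ, q.1 = (s.α ^ n) k ∧ (q.2 = 0 ∨ q.2 = 1)} with hL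
    have hmem := hcl L ⟨(k, 0), 0, by simp⟩ (by
      rintro ⟨k', t⟩ ⟨n, h1, h2⟩
      simp only at h1 h2
      rcases h2 with rfl | rfl
      · refine ⟨n - 1, ?_, Or.inr rfl⟩
        simp only [M0, h1]
        rw [Equiv.symm_apply_eq, ← Equiv.Perm.mul_apply, ← zpow_one_add]
        congr 2
        ring
      · refine ⟨n + 1, ?_, Or.inl rfl⟩
        simp only [M1, h1]
        rw [← Equiv.Perm.mul_apply, ← zpow_one_add]
        congr 2
        ring) (by
      rintro ⟨k', t⟩ ⟨n, h1, h2⟩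
      simp only at h1 h2
      have hy' := hk n
      rw [← h1] at hy'
      obtain ⟨h0, h1', h2', h3, h4, h5, h6, h7⟩ := hst k'
      rw [hy'] at h0 h1' h7
      rcases h2 with rfl | rfl
      · refine ⟨fun _ => ⟨n, h1, Or.inr rfl⟩, fun h => ?_⟩
        simp only [nb2] at h
        exact absurd (h7.1 h) (by simp)
      · refine ⟨fun h => ?_, fun _ => ⟨n, h1, Or.inl rfl⟩⟩
        exact absurd (h1'.1 h) (by simp)) (k, 2)
    obtain ⟨n, -, h1⟩ := hmem
    simp at h1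

end Sys

end Pool.Agent.H679R2
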