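import Pool.Agent.H679R2.Oct.Inv

/-!
# Free switches, and Hamiltonian cycles as connected 2-regular spanning subgraphs
-/

namespace Pool.Agent.H679R2

/-- If each of finitely many four-terminal switches may be set freely in one of its two states,
they may be set so that the four terminals of each switch lie on one cycle. -/
theorem exists_free {ι V : Type*} [Fintype ι] [DecidableEq ι] [Fintype V] [DecidableEq V]
    {M : V → V} (S : (ι → Bool) → V → V) (t : ι → Fin 4 → V)
    (hM : Function.Involutive M) (hM' : ∀ v, M v ≠ v)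
    (hS : ∀ z, Function.Involutive (S z)) (hS' : ∀ z v, S z v ≠ v)
    (hf : ∀ z k, z k = false → S z (t k 0) = t k 1 ∧ S z (t k 2) = t k 3)
    (ht : ∀ z k, z k = true → S z (t k 1) = t k 2 ∧ S z (t k 3) = t k 0)
    (hag : ∀ z k x, (∀ i, x ≠ t k i) → S (Function.update z k (!z k)) x = S z x) :
    ∃ z, ∀ k i j, Conn M (S z) (t k i) (t k j) := by
  classical
  set N : (ι → Bool) → Finset (V × V) := fun z =>
    Finset.univ.filter (fun q => Conn M (S z) q.1 q.2) with hN
  obtain ⟨z, -, hz⟩ := Finset.exists_max_image (Finset.univ : Finset (ι → Bool))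
    (fun z => (N z).card) ⟨fun _ => false, Finset.mem_univ _⟩
  have key : ∀ k a b c d, ((a = t k 0 ∧ b = t k 1 ∧ c = t k 2 ∧ d = t k 3 ∧ z k = false) ∨
      (a = t k 3 ∧ b = t k 0 ∧ c = t k 1 ∧ d = t k 2 ∧ z k = true)) → Conn M (S z) a c := by
    intro k a b c d h
    by_contra hac
    set z' := Function.update z k (!z k) with hz'
    have hz'k : z' k = !z k := by simp [hz']
    have hcase : S z a = b ∧ S z c = d ∧ S z' b = c := by
      rcases h with ⟨rfl, rfl, rfl, rfl, hk⟩ | ⟨rfl, rfl, rfl, rfl, hk⟩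
      · exact ⟨(hf z k hk).1, (hf z k hk).2, (ht z' k (by simp [hz'k, hk])).1⟩
      · exact ⟨(ht z k hk).2, (ht z k hk).1, (hf z' k (by simp [hz'k, hk])).1⟩
    have hag' : ∀ x, x ≠ a → x ≠ b → x ≠ c → x ≠ d → S z' x = S z x := by
      intro x ha hb hc hd
      refine hag z k x fun i => ?_
      rcases h with ⟨rfl, rfl, rfl, rfl, -⟩ | ⟨rfl, rfl, rfl, rfl, -⟩ <;> fin_cases i <;>
        assumption
    obtain ⟨h1, h2⟩ := conn_toggle hM hM' (hS z) (hS' z) (hS z') hcase.1 hcase.2.1 hac
      hcase.2.2 hag'
    have hlt : (N z).card < (N z').card := by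
      refine Finset.card_lt_card ((Finset.ssubset_iff_of_subset ?_).2 ⟨(a, c), ?_, ?_⟩)
      · intro q hq
        simp only [hN, Finset.mem_filter, Finset.mem_univ, true_and] at hq ⊢
        exact h1 _ _ hq
      · simpa [hN] using h2
      · simpa [hN] using hac
    exact absurd (hz z' (Finset.mem_univ _)) (not_le.2 hlt)
  refine ⟨z, fun k => ?_⟩
  have h0 : ∀ i, Conn M (S z) (t k 0) (t k i) := by
    cases hk : z k with
    | false =>
      have h02 := key k _ _ _ _ (Or.inl ⟨rfl, rfl, rfl, rfl, hk⟩)
      have h01 : Conn M (S z) (t k 0) (t k 1) := (hf z k hk).1 ▸ Conn.right _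
      have h23 : Conn M (S z) (t k 2) (t k 3) := (hf z k hk).2 ▸ Conn.right _
      intro i
      fin_cases i
      · exact Conn.refl _
      · exact h01
      · exact h02
      · exact h02.trans h23
    | true =>
      have h31 := key k _ _ _ _ (Or.inr ⟨rfl, rfl, rfl, rfl, hk⟩)
      have h12 : Conn M (S z) (t k 1) (t k 2) := (ht z k hk).1 ▸ Conn.right _
      have h30 : Conn M (S z) (t k 3) (t k 0) := (ht z k hk).2 ▸ Conn.right _
      intro i
      fin_cases i
      · exact Conn.refl _
      · exact h30.symm.trans h31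
      · exact h30.symm.trans (h31.trans h12)
      · exact h30.symm
  exact fun i j => (h0 i).symm.trans (h0 j)

/-- A connected 2-regular spanning subgraph is a Hamiltonian cycle. -/
theorem exists_hamCycle {V : Type*} [Finite V] [DecidableEq V] {G G' : SimpleGraph V}
    (hle : G' ≤ G) (h2 : ∀ v, (G'.neighborSet v).ncard = 2) (hc : G'.Connected) :
    ∃ a, ∃ p : G.Walk a a, p.IsHamiltonianCycle := by
  classical
  have := Fintype.ofFinite V
  obtain ⟨a⟩ := hc.nonempty
  have hcyc : G'.IsCycles := fun v _ => h2 v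
  have hn : (G'.neighborSet a).Nonempty := Set.nonempty_of_ncard_ne_zero (by rw [h2]; decide)
  obtain ⟨p, hp, hs⟩ := hcyc.exists_cycle_toSubgraph_verts_eq_connectedComponentSupp
    (c := G'.connectedComponentMk a) rfl hn
  have hall : ∀ v, v ∈ p.support := by
    intro v
    rw [← SimpleGraph.Walk.mem_verts_toSubgraph, hs,
      SimpleGraph.ConnectedComponent.mem_supp_iff, SimpleGraph.ConnectedComponent.eq]
    exact hc.preconnected v a
  have hpH : p.IsHamiltonianCycle := by
    refine ⟨hp, ?_⟩
    refine hp.isPath_tail.isHamiltonian_of_mem fun v => ?_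
    have h1 := hall v
    have h3 := SimpleGraph.Walk.support_tail_of_not_nil p hp.not_nil
    rw [h3]
    rw [← SimpleGraph.Walk.cons_tail_support] at h1
    rcases List.mem_cons.1 h1 with h | h
    · subst h
      exact SimpleGraph.Walk.end_mem_tail_support hp.not_nil
    · exact h
  exact ⟨a, p.map (SimpleGraph.Hom.ofLE hle), hpH.map Function.bijective_id⟩

/-- The edges of a Hamiltonian cycle: a 2-regular relation with no proper closed subset. -/
theorem of_hamCycle {V : Type*} [DecidableEq V] {G : SimpleGraph V} {a : V}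
    {p : G.Walk a a} (hp : p.IsHamiltonianCycle) :
    ∃ E : V → V → Prop, (∀ v w, E v w → E w v) ∧ (∀ v w, E v w → G.Adj v w) ∧
      (∀ v, {w | E v w}.ncard = 2) ∧
      ∀ W : Set V, W.Nonempty → (∀ v ∈ W, ∀ w, E v w → w ∈ W) → W = Set.univ := by
  refine ⟨p.toSubgraph.Adj, fun v w h => h.symm, fun v w h => h.adj_sub, fun v => ?_, ?_⟩
  · exact hp.isCycle.ncard_neighborSet_toSubgraph_eq_two (hp.mem_support v)
  · rintro W ⟨w, hw⟩ hW
    have hconn := p.toSubgraph_connected
    have key : ∀ x y : p.toSubgraph.verts, p.toSubgraph.coe.Reachable x y → x.1 ∈ W → y.1 ∈ W := by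
      rintro x y ⟨q⟩ hx
      induction q with
      | nil => exact hx
      | cons h q ih => exact ih (hW _ hx _ h)
    have hv : ∀ v, v ∈ p.toSubgraph.verts := fun v => by
      rw [SimpleGraph.Walk.mem_verts_toSubgraph]
      exact hp.mem_support v
    exact Set.eq_univ_of_forall fun v =>
      key ⟨w, hv w⟩ ⟨v, hv v⟩ (hconn.coe.preconnected _ _) hw

end Pool.Agent.H679R2
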