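import Pool.Agent.H679R2.Oct.Red

/-!
# The instances produced by the reduction
-/

namespace Pool.Agent.H679R2

open Pool.Agent.NPC

/-- number of a vertex -/
def cd (h : ℕ) (x : ℕ × ℕ × ℕ) : ℕ := x.2.2 + (h + 1) * (x.2.1 + 12 * x.1)

/-- computed successor with the same key -/
def nx (keys : List ℕ) (k : ℕ) : ℕ :=
  match (((List.range keys.length).map (fun i => (k + 1 + i) % keys.length)).filter
    (fun j => decide (keys.getD j 0 = keys.getD k 0))).head? with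
  | none => 0
  | some j => j

/-- numbers of the strand terminals -/
def T0N (b : Bool) : ℕ := bif b then 3 else 6
/-- numbers of the strand terminals -/
def T1N (b : Bool) : ℕ := bif b then 4 else 7

/-- edges of the clusters -/
def clE : List (ℕ × ℕ) := [(0, 1), (1, 2), (2, 3), (3, 4), (4, 5), (5, 6), (6, 7), (7, 0), (8, 9),
  (9, 10), (10, 11), (11, 8)]

/-- edges joining the ends of the paths -/
def lnE (o : List (ℕ × Bool × ℕ)) (k : ℕ) : List ((ℕ × ℕ) × (ℕ × ℕ)) :=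
  [((k, 1), (nx (cK o) k, 0)), ((k, 2), (k, 8)), ((k, 5), (k, 10)), ((k, 9), (nx (zK o) k, 11)),
    ((k, T0N ((sK o).getD k false)), (nx (vK o) k, T0N (!(sK o).getD (nx (vK o) k) false))),
    ((k, T1N ((sK o).getD k false)), (nx (vK o) k, T1N (!(sK o).getD (nx (vK o) k) false)))]

/-- all edges -/
def E3 (o : List (ℕ × Bool × ℕ)) (h : ℕ) : List ((ℕ × ℕ × ℕ) × (ℕ × ℕ × ℕ)) :=
  (List.range o.length).flatMap (fun k =>
    (List.range 12).flatMap (fun t => (List.range h).map (fun i => ((k, t, i), (k, t, i + 1)))) ++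
    clE.map (fun q => ((k, q.1, 0), (k, q.2, 0))) ++
    (lnE o k).map (fun q => ((q.1.1, q.1.2, h), (q.2.1, q.2.2, h))))

/-- The instance of a nonempty list of occurrences. -/
def instOf (o : List (ℕ × Bool × ℕ)) (h : ℕ) : List ℕ × List (ℕ × ℕ) :=
  (List.range (o.length * 12 * (h + 1)), (E3 o h).map (fun q => (cd h q.1, cd h q.2)))

theorem nx_eq (keys : List ℕ) (N : ℕ) (hN : keys.length = N) (k : Fin N) :
    nx keys k.val = (nxt N (fun i => keys.getD i 0) k).val := by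
  subst hN
  set key : ℕ → ℕ := fun i => keys.getD i 0 with hkey
  have h1 := off_lt keys.length key k.val k.isLt
  have h2 := off_key keys.length key k.val k.isLt
  have h3 := off_min keys.length key k.val k.isLt
  have h4 : (List.range keys.length).find?
      (fun i => decide (key ((k.val + 1 + i) % keys.length) = key k.val)) =
      some (off keys.length key k.val k.isLt) := by
    rw [List.find?_range_eq_some]
    refine ⟨by simpa using h2, by simpa using h1, fun j hj => ?_⟩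
    by_contra hc
    have := h3 j (by omega) (by simpa using hc)
    omega
  unfold nx
  rw [List.head?_filter, List.find?_map]
  have h5 : ((fun j => decide (keys.getD j 0 = keys.getD k.val 0)) ∘
      fun i => (k.val + 1 + i) % keys.length) =
      (fun i => decide (key ((k.val + 1 + i) % keys.length) = key k.val)) := rfl
  rw [h5, h4]
  rfl

theorem T0N_eq (b : Bool) : T0N b = (T0 b).val := by cases b <;> rfl

theorem T1N_eq (b : Bool) : T1N b = (T1 b).val := by cases b <;> rfl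

theorem nb1_mem : ∀ t t' : Fin 12, (t.val, t'.val) ∈ clE ↔ t' = nb1 t := by decide

/-- forward end points of the joining edges -/
def Fwd (b : Bool) (t : Fin 12) : Prop := t = 1 ∨ t = 2 ∨ t = 5 ∨ t = 9 ∨ t = T0 b ∨ t = T1 b

theorem mem_E3 (o : List (ℕ × Bool × ℕ)) (h : ℕ) (k k' : Fin o.length) (t t' : Fin 12)
    (i i' : Fin (h + 1)) : ((k.val, t.val, i.val), (k'.val, t'.val, i'.val)) ∈ E3 o h ↔
      (k = k' ∧ t = t' ∧ i.val + 1 = i'.val) ∨
      (k = k' ∧ t' = nb1 t ∧ i.val = 0 ∧ i'.val = 0) ∨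
      (Fwd ((sysOf o).sg k) t ∧ (k', t') = (sysOf o).M (k, t) ∧ i.val = h ∧ i'.val = h) := by
  have hc : ∀ k : Fin o.length, nx (cK o) k.val = ((sysOf o).α k).val := fun k =>
    nx_eq (cK o) o.length (by simp [cK]) k
  have hv : ∀ k : Fin o.length, nx (vK o) k.val = ((sysOf o).β k).val := fun k =>
    nx_eq (vK o) o.length (by simp [vK]) k
  have hz : ∀ k : Fin o.length, nx (zK o) k.val = ((sysOf o).γ k).val := fun k =>
    nx_eq (zK o) o.length (by simp [zK]) k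
  have hs : ∀ k : Fin o.length, (sK o).getD k.val false = (sysOf o).sg k := fun k => rfl
  have hln : ∀ q, q ∈ lnE o k.val ↔ ∃ t : Fin 12, Fwd ((sysOf o).sg k) t ∧
      q = ((k.val, t.val), (((sysOf o).M (k, t)).1.val, ((sysOf o).M (k, t)).2.val)) := by
    intro q
    unfold lnE Fwd
    rw [hc, hv, hz, hs, hs, T0N_eq, T0N_eq, T1N_eq, T1N_eq]
    simp only [List.mem_cons, List.not_mem_nil, or_false]
    constructor
    · rintro (rfl | rfl | rfl | rfl | rfl | rfl)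
      · exact ⟨1, by simp, rfl⟩
      · exact ⟨2, by simp, rfl⟩
      · exact ⟨5, by simp, rfl⟩
      · exact ⟨9, by simp, rfl⟩
      · exact ⟨T0 ((sysOf o).sg k), by simp, by rw [Sys.M_T0]⟩
      · exact ⟨T1 ((sysOf o).sg k), by simp, by rw [Sys.M_T1]⟩
    · rintro ⟨t, (rfl | rfl | rfl | rfl | rfl | rfl), rfl⟩
      · exact Or.inl rfl
      · exact Or.inr (Or.inl rfl)
      · exact Or.inr (Or.inr (Or.inl rfl))
      · exact Or.inr (Or.inr (Or.inr (Or.inl rfl)))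
      · exact Or.inr (Or.inr (Or.inr (Or.inr (Or.inl (by rw [Sys.M_T0])))))
      · exact Or.inr (Or.inr (Or.inr (Or.inr (Or.inr (by rw [Sys.M_T1])))))
  unfold E3
  simp only [List.mem_flatMap, List.mem_range, List.mem_append, List.mem_map]
  constructor
  · rintro ⟨a, ha, (⟨b, hb, c, hc', he⟩ | ⟨q, hq, he⟩) | ⟨q, hq, he⟩⟩
    · simp only [Prod.mk.injEq] at he
      exact Or.inl ⟨Fin.ext (by omega), Fin.ext (by omega), by omega⟩
    · simp only [Prod.mk.injEq] at he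
      obtain ⟨⟨h1, h2, h3⟩, h4, h5, h6⟩ := he
      refine Or.inr (Or.inl ⟨Fin.ext (by omega), ?_, by omega, by omega⟩)
      rw [← nb1_mem, ← h2, ← h5]
      exact hq
    · simp only [Prod.mk.injEq] at he
      obtain ⟨⟨h1, h2, h3⟩, h4, h5, h6⟩ := he
      have hak : a = k.val := by
        have : q.1.1 = a := by
          unfold lnE at hq
          simp only [List.mem_cons, List.not_mem_nil, or_false] at hq
          rcases hq with rfl | rfl | rfl | rfl | rfl | rfl <;> rfl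
        omega
      subst hak
      obtain ⟨t₁, ht₁, rfl⟩ := (hln q).1 hq
      have htt : t = t₁ := Fin.ext h2.symm
      subst htt
      refine Or.inr (Or.inr ⟨ht₁, ?_, by omega, by omega⟩)
      exact Prod.ext (Fin.ext h4.symm) (Fin.ext h5.symm)
  · rintro (⟨rfl, rfl, h3⟩ | ⟨rfl, h2, h3, h4⟩ | ⟨h1, h2, h3, h4⟩)
    · refine ⟨k.val, k.isLt, Or.inl (Or.inl ⟨t.val, t.isLt, i.val, by omega, ?_⟩)⟩
      rw [h3]
    · refine ⟨k.val, k.isLt, Or.inl (Or.inr ⟨(t.val, t'.val), (nb1_mem t t').2 h2, ?_⟩)⟩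
      rw [h3, h4]
    · refine ⟨k.val, k.isLt, Or.inr ⟨_, (hln _).2 ⟨t, h1, rfl⟩, ?_⟩⟩
      rw [← h2, h3, h4]

theorem adj_iff (o : List (ℕ × Bool × ℕ)) (h : ℕ) (p q : (Fin o.length × Fin 12) × Fin (h + 1)) :
    ((sysOf o).G h).Adj p q ↔
      ((p.1.1.val, p.1.2.val, p.2.val), (q.1.1.val, q.1.2.val, q.2.val)) ∈ E3 o h ∨
      ((q.1.1.val, q.1.2.val, q.2.val), (p.1.1.val, p.1.2.val, p.2.val)) ∈ E3 o h := by
  obtain ⟨⟨k, t⟩, i⟩ := p
  obtain ⟨⟨k', t'⟩, i'⟩ := q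
  rw [mem_E3, mem_E3]
  simp only [Sys.G, Prod.mk.injEq]
  constructor
  · rintro (⟨⟨h1, h2⟩, h3 | h3⟩ | ⟨h1, h2, h3⟩ | ⟨h1, h2, h3, h4 | h4⟩)
    · exact Or.inl (Or.inl ⟨h1, h2, h3⟩)
    · exact Or.inr (Or.inl ⟨h1.symm, h2.symm, h3⟩)
    · have h4 : (k, t) = (sysOf o).M (k', t') := by rw [h1, Sys.M_invol]
      rcases Sys.terminal_cases ((sysOf o).sg k) t with h5 | h5 | h5 | h5 | h5 | h5 | h5 | h5 |
        h5 | h5 | h5 | h5 <;> subst h5
      · refine Or.inr (Or.inr (Or.inr ⟨?_, h4, h3, h2⟩))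
        rw [Sys.M0, Prod.mk.injEq] at h1
        exact Or.inl h1.2
      · exact Or.inl (Or.inr (Or.inr ⟨Or.inl rfl, h1, h2, h3⟩))
      · exact Or.inl (Or.inr (Or.inr ⟨Or.inr (Or.inl rfl), h1, h2, h3⟩))
      · exact Or.inl (Or.inr (Or.inr ⟨Or.inr (Or.inr (Or.inl rfl)), h1, h2, h3⟩))
      · refine Or.inr (Or.inr (Or.inr ⟨?_, h4, h3, h2⟩))
        rw [Sys.M8, Prod.mk.injEq] at h1
        exact Or.inr (Or.inl h1.2)
      · exact Or.inl (Or.inr (Or.inr ⟨Or.inr (Or.inr (Or.inr (Or.inl rfl))), h1, h2, h3⟩))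
      · refine Or.inr (Or.inr (Or.inr ⟨?_, h4, h3, h2⟩))
        rw [Sys.M10, Prod.mk.injEq] at h1
        exact Or.inr (Or.inr (Or.inl h1.2))
      · refine Or.inr (Or.inr (Or.inr ⟨?_, h4, h3, h2⟩))
        rw [Sys.M11, Prod.mk.injEq] at h1
        exact Or.inr (Or.inr (Or.inr (Or.inl h1.2)))
      · exact Or.inl (Or.inr (Or.inr ⟨Or.inr (Or.inr (Or.inr (Or.inr (Or.inl rfl)))), h1, h2, h3⟩))
      · exact Or.inl (Or.inr (Or.inr ⟨Or.inr (Or.inr (Or.inr (Or.inr (Or.inr rfl)))), h1, h2, h3⟩))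
      · refine Or.inr (Or.inr (Or.inr ⟨?_, h4, h3, h2⟩))
        rw [Sys.M_F0, Prod.mk.injEq] at h1
        rw [← h1.1] at h1
        exact Or.inr (Or.inr (Or.inr (Or.inr (Or.inl h1.2))))
      · refine Or.inr (Or.inr (Or.inr ⟨?_, h4, h3, h2⟩))
        rw [Sys.M_F1, Prod.mk.injEq] at h1
        rw [← h1.1] at h1
        exact Or.inr (Or.inr (Or.inr (Or.inr (Or.inr h1.2))))
    · exact Or.inl (Or.inr (Or.inl ⟨h3, h4, h1, h2⟩))
    · exact Or.inr (Or.inr (Or.inl ⟨h3.symm, by rw [h4, nb1_nb2], h2, h1⟩))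
  · rintro ((⟨h1, h2, h3⟩ | ⟨h1, h2, h3, h4⟩ | ⟨h1, h2, h3, h4⟩) |
      (⟨h1, h2, h3⟩ | ⟨h1, h2, h3, h4⟩ | ⟨h1, h2, h3, h4⟩))
    · exact Or.inl ⟨⟨h1, h2⟩, Or.inl h3⟩
    · exact Or.inr (Or.inr ⟨h3, h4, h1, Or.inl h2⟩)
    · exact Or.inr (Or.inl ⟨h2, h3, h4⟩)
    · exact Or.inl ⟨⟨h1.symm, h2.symm⟩, Or.inr h3⟩
    · exact Or.inr (Or.inr ⟨h4, h3, h1.symm, Or.inr (by rw [h2, nb2_nb1])⟩)
    · exact Or.inr (Or.inl ⟨by rw [h2, Sys.M_invol], h4, h3⟩)

theorem cd_inj (h : ℕ) {x y : ℕ × ℕ × ℕ} (hx : x.2.1 < 12) (hx' : x.2.2 < h + 1) (hy : y.2.1 < 12)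
    (hy' : y.2.2 < h + 1) (hxy : cd h x = cd h y) : x = y := by
  obtain ⟨k, t, i⟩ := x
  obtain ⟨k', t', i'⟩ := y
  simp only [cd] at hx hx' hy hy' hxy
  have h1 : i = i' := by
    have := congrArg (· % (h + 1)) hxy
    simpa [Nat.add_mul_mod_self_left, Nat.mod_eq_of_lt hx', Nat.mod_eq_of_lt hy'] using this
  subst h1
  have h2 : t + 12 * k = t' + 12 * k' := Nat.eq_of_mul_eq_mul_left (by omega : 0 < h + 1) (by omega)
  have h3 : t = t' := by omega
  have h4 : k = k' := by omega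
  rw [h3, h4]

theorem E3_valid (o : List (ℕ × Bool × ℕ)) (h : ℕ) {q : (ℕ × ℕ × ℕ) × (ℕ × ℕ × ℕ)}
    (hq : q ∈ E3 o h) : (q.1.2.1 < 12 ∧ q.1.2.2 < h + 1) ∧ (q.2.2.1 < 12 ∧ q.2.2.2 < h + 1) := by
  unfold E3 at hq
  simp only [List.mem_flatMap, List.mem_range, List.mem_append, List.mem_map] at hq
  obtain ⟨a, ha, (⟨b, hb, c, hc', rfl⟩ | ⟨q, hq, rfl⟩) | ⟨q, hq, rfl⟩⟩ := hq
  · exact ⟨⟨hb, by dsimp only; omega⟩, ⟨hb, by dsimp only; omega⟩⟩
  · have : q.1 < 12 ∧ q.2 < 12 := by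
      revert q
      unfold clE
      decide
    exact ⟨⟨this.1, by dsimp only; omega⟩, ⟨this.2, by dsimp only; omega⟩⟩
  · have hT0 : ∀ b, T0N b < 12 := by decide
    have hT1 : ∀ b, T1N b < 12 := by decide
    have : q.1.2 < 12 ∧ q.2.2 < 12 := by
      unfold lnE at hq
      simp only [List.mem_cons, List.not_mem_nil, or_false] at hq
      rcases hq with rfl | rfl | rfl | rfl | rfl | rfl
      · simp
      · simp
      · simp
      · simp
      · exact ⟨hT0 _, hT0 _⟩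
      · exact ⟨hT1 _, hT1 _⟩
    exact ⟨⟨this.1, by dsimp only; omega⟩, ⟨this.2, by dsimp only; omega⟩⟩

theorem mem_edges (o : List (ℕ × Bool × ℕ)) (h : ℕ) {x y : ℕ × ℕ × ℕ} (hx : x.2.1 < 12)
    (hx' : x.2.2 < h + 1) (hy : y.2.1 < 12) (hy' : y.2.2 < h + 1) :
    (cd h x, cd h y) ∈ (instOf o h).2 ↔ (x, y) ∈ E3 o h := by
  simp only [instOf, List.mem_map, Prod.mk.injEq]
  constructor
  · rintro ⟨q, hq, h1, h2⟩
    have h3 := E3_valid o h hq
    have h4 := cd_inj h h3.1.1 h3.1.2 hx hx' h1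
    have h5 := cd_inj h h3.2.1 h3.2.2 hy hy' h2
    rw [← h4, ← h5]
    exact hq
  · intro hq
    exact ⟨_, hq, rfl, rfl⟩

theorem cd_lt (N h : ℕ) (x : (Fin N × Fin 12) × Fin (h + 1)) :
    cd h (x.1.1.val, x.1.2.val, x.2.val) < N * 12 * (h + 1) := by
  obtain ⟨⟨k, t⟩, i⟩ := x
  simp only [cd]
  have h1 : t.val + 12 * k.val + 1 ≤ N * 12 := by omega
  calc i.val + (h + 1) * (t.val + 12 * k.val) < (h + 1) + (h + 1) * (t.val + 12 * k.val) := by omega
    _ = (t.val + 12 * k.val + 1) * (h + 1) := by ring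
    _ ≤ N * 12 * (h + 1) := Nat.mul_le_mul_right _ h1

/-- The presented graph is the graph of the system. -/
noncomputable def instIso (o : List (ℕ × Bool × ℕ)) (h : ℕ) :
    (sysOf o).G h ≃g toGraph (instOf o h) where
  toEquiv := Equiv.ofBijective (fun x => ⟨cd h (x.1.1.val, x.1.2.val, x.2.val),
      by simp only [instOf, List.mem_range]; exact cd_lt _ _ x⟩) (by
    constructor
    · intro x y hxy
      have := cd_inj h (x := (x.1.1.val, x.1.2.val, x.2.val)) (y := (y.1.1.val, y.1.2.val, y.2.val))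
        x.1.2.isLt x.2.isLt y.1.2.isLt y.2.isLt (congrArg Subtype.val hxy)
      simp only [Prod.mk.injEq] at this
      exact Prod.ext (Prod.ext (Fin.ext this.1) (Fin.ext this.2.1)) (Fin.ext this.2.2)
    · rintro ⟨v, hv⟩
      simp only [instOf, List.mem_range] at hv
      have hh : 0 < h + 1 := by omega
      have h1 : v / (h + 1) < o.length * 12 := Nat.div_lt_of_lt_mul (by rwa [mul_comm] at hv)
      refine ⟨((⟨v / (h + 1) / 12, by omega⟩, ⟨v / (h + 1) % 12, by omega⟩),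
        ⟨v % (h + 1), Nat.mod_lt _ hh⟩), ?_⟩
      apply Subtype.ext
      simp only [cd]
      have h2 : v / (h + 1) % 12 + 12 * (v / (h + 1) / 12) = v / (h + 1) := by omega
      rw [h2]
      exact Nat.mod_add_div v (h + 1))
  map_rel_iff' := by
    intro x y
    rw [adj_iff]
    simp only [toGraph, Equiv.ofBijective_apply]
    rw [mem_edges o h x.1.2.isLt x.2.isLt y.1.2.isLt y.2.isLt,
      mem_edges o h y.1.2.isLt y.2.isLt x.1.2.isLt x.2.isLt, ← adj_iff]
    constructor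
    · exact fun h => h.2
    · intro hxy
      refine ⟨fun he => ?_, hxy⟩
      have := cd_inj h (x := (x.1.1.val, x.1.2.val, x.2.val)) (y := (y.1.1.val, y.1.2.val, y.2.val))
        x.1.2.isLt x.2.isLt y.1.2.isLt y.2.isLt (congrArg Subtype.val he)
      simp only [Prod.mk.injEq] at this
      have hxy' : x = y :=
        Prod.ext (Prod.ext (Fin.ext this.1) (Fin.ext this.2.1)) (Fin.ext this.2.2)
      subst hxy'
      exact hxy.ne rfl

theorem hamCycle_iso {V W : Type*} [DecidableEq V] [DecidableEq W] {G : SimpleGraph V}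
    {H : SimpleGraph W} (e : G ≃g H) (h : ∃ a, ∃ p : G.Walk a a, p.IsHamiltonianCycle) :
    ∃ a, ∃ p : H.Walk a a, p.IsHamiltonianCycle := by
  obtain ⟨a, p, hp⟩ := h
  exact ⟨e a, p.map e.toHom, hp.map e.bijective⟩

/-- The reduction. -/
def red (h : ℕ) (φ : List (Lit ℕ × Lit ℕ × Lit ℕ)) : List ℕ × List (ℕ × ℕ) :=
  if φ.isEmpty then ([0, 1, 2], [(0, 1), (1, 2), (2, 0)]) else instOf (occ φ) h

theorem triangle_ham : HasHamCycle ([0, 1, 2], [(0, 1), (1, 2), (2, 0)]) := by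
  have h01 : (toGraph ([0, 1, 2], [(0, 1), (1, 2), (2, 0)])).Adj ⟨0, by simp⟩ ⟨1, by simp⟩ := by
    simp [toGraph]
  have h12 : (toGraph ([0, 1, 2], [(0, 1), (1, 2), (2, 0)])).Adj ⟨1, by simp⟩ ⟨2, by simp⟩ := by
    simp [toGraph]
  have h20 : (toGraph ([0, 1, 2], [(0, 1), (1, 2), (2, 0)])).Adj ⟨2, by simp⟩ ⟨0, by simp⟩ := by
    simp [toGraph]
  refine ⟨⟨0, by simp⟩, SimpleGraph.Walk.cons h01 (SimpleGraph.Walk.cons h12
    (SimpleGraph.Walk.cons h20 SimpleGraph.Walk.nil)), ?_⟩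
  rw [SimpleGraph.Walk.isHamiltonianCycle_iff_isCycle_and_support_count_tail_eq_one]
  constructor
  · rw [SimpleGraph.Walk.cons_isCycle_iff]
    constructor
    · simp [SimpleGraph.Walk.isPath_def]
    · simp
  · rintro ⟨v, hv⟩
    simp only [List.mem_cons, List.not_mem_nil, or_false] at hv
    rcases hv with rfl | rfl | rfl <;> simp [List.count_cons]

theorem triangle_free (j : ℕ) : (Hj j).Free (toGraph ([0, 1, 2], [(0, 1), (1, 2), (2, 0)])) := by
  rintro ⟨φ⟩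
  have h1 := φ.injective
  have hlt : ∀ v : {v : ℕ // v ∈ ([0, 1, 2] : List ℕ)}, v.1 < 3 := by
    rintro ⟨v, hv⟩
    simp only [List.mem_cons, List.not_mem_nil, or_false] at hv
    dsimp only
    omega
  have h2 : Fintype.card (Fin (j + 1) ⊕ Bool × Bool) ≤ Fintype.card (Fin 3) :=
    Fintype.card_le_of_injective
      (fun x => (⟨((φ x : {v : ℕ // v ∈ ([0, 1, 2] : List ℕ)})).1, hlt _⟩ : Fin 3))
      (fun x y hxy => h1 (Subtype.ext (congrArg Fin.val hxy)))
  simp at h2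

theorem red_ham (h : ℕ) (hh : 1 ≤ h) (φ : List (Lit ℕ × Lit ℕ × Lit ℕ)) :
    SAT3 φ ↔ HasHamCycle (red h φ) := by
  unfold red
  by_cases hφ : φ = []
  · subst hφ
    simp only [List.isEmpty_nil, if_true]
    exact iff_of_true ⟨fun _ => true, by simp⟩ triangle_ham
  · rw [if_neg (by simpa using hφ), sat3_iff, ← sys_ham_iff (occ φ) (List.length_pos_of_ne_nil
      (fun h => hφ ((occ_eq_nil φ).1 h))) h hh]
    exact ⟨hamCycle_iso (instIso (occ φ) h), hamCycle_iso (instIso (occ φ) h).symm⟩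

theorem red_free (h j : ℕ) (hj : 6 ≤ j) (hh : j ≤ h) (φ : List (Lit ℕ × Lit ℕ × Lit ℕ)) :
    (Hj j).Free (toGraph (red h φ)) := by
  unfold red
  by_cases hφ : φ = []
  · subst hφ
    simp only [List.isEmpty_nil, if_true]
    exact triangle_free j
  · rw [if_neg (by simpa using hφ)]
    intro hc
    exact (sysOf (occ φ)).free h j hj hh
      ((SimpleGraph.isContained_congr SimpleGraph.Iso.refl (instIso (occ φ) h)).2 hc)

end Pool.Agent.H679R2
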