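import Mathlib

/-!
# Two fixed-point-free involutions and alternating cycles
-/

namespace Pool.Agent.H679R2

/-- The equivalence relation generated by two maps. -/
def Conn {V : Type*} (M S : V → V) : V → V → Prop :=
  Relation.EqvGen (fun p q => q = M p ∨ q = S p)

namespace Conn

variable {V : Type*} {M S : V → V}

theorem refl (a : V) : Conn M S a a := Relation.EqvGen.refl a

theorem symm {a b : V} (h : Conn M S a b) : Conn M S b a := Relation.EqvGen.symm _ _ h

theorem trans {a b c : V} (h : Conn M S a b) (h' : Conn M S b c) : Conn M S a c :=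
  Relation.EqvGen.trans _ _ _ h h'

theorem left (a : V) : Conn M S a (M a) := Relation.EqvGen.rel _ _ (Or.inl rfl)

theorem right (a : V) : Conn M S a (S a) := Relation.EqvGen.rel _ _ (Or.inr rfl)

theorem mono {S' : V → V} (h : ∀ a, Conn M S' a (S a)) {a b : V} (hab : Conn M S a b) :
    Conn M S' a b := by
  induction hab with
  | rel x y hxy =>
    rcases hxy with rfl | rfl
    · exact left x
    · exact h x
  | refl x => exact refl x
  | symm x y _ ih => exact ih.symm
  | trans x y z _ _ ih ih' => exact ih.trans ih'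

theorem closed (hM : Function.Involutive M) (hS : Function.Involutive S) {X : Set V}
    (h1 : ∀ x ∈ X, M x ∈ X) (h2 : ∀ x ∈ X, S x ∈ X) {a b : V} (hab : Conn M S a b) :
    a ∈ X ↔ b ∈ X := by
  induction hab with
  | rel x y hxy =>
    rcases hxy with rfl | rfl
    · exact ⟨h1 x, fun h => by simpa [hM x] using h1 _ h⟩
    · exact ⟨h2 x, fun h => by simpa [hS x] using h2 _ h⟩
  | refl x => exact Iff.rfl
  | symm x y _ ih => exact ih.symm
  | trans x y z _ _ ih ih' => exact ih.trans ih'

end Conn

theorem even_card_of_involution {V : Type*} (F : Finset V) (g : V → V)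
    (hg : Function.Involutive g) (hf : ∀ v ∈ F, g v ≠ v) (hF : ∀ v ∈ F, g v ∈ F) :
    Even F.card := by
  have h : ∑ _x ∈ F, (1 : ZMod 2) = 0 :=
    Finset.sum_involution (fun a _ => g a) (fun a _ => by decide) (fun a ha _ => hf a ha)
      (fun a ha => hF a ha) (fun a _ => hg a)
  rw [Finset.sum_const, nsmul_eq_mul, mul_one] at h
  exact (ZMod.natCast_eq_zero_iff_even).1 h

/-- Removing one `S`-edge from an alternating cycle keeps its two ends connected; the rest of `S`
may be changed away from the cycle. -/
theorem conn_of_toggle {V : Type*} [Fintype V] [DecidableEq V] {M S S' : V → V}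
    (hM : Function.Involutive M) (hM' : ∀ v, M v ≠ v) (hS : Function.Involutive S)
    (hS' : ∀ v, S v ≠ v) {a b c d : V} (hab : S a = b) (hcd : S c = d)
    (hac : ¬ Conn M S a c)
    (hag : ∀ x, x ≠ a → x ≠ b → x ≠ c → x ≠ d → S' x = S x) : Conn M S' a b := by
  classical
  set r : V → V → Prop := fun x y => y = M x ∨ (y = S x ∧ x ≠ a ∧ x ≠ b) with hr
  have hr1 : ∀ x, Relation.ReflTransGen r a x → Conn M S a x ∧ Conn M S' a x := by
    intro x hx
    induction hx with
    | refl => exact ⟨Conn.refl _, Conn.refl _⟩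
    | tail h h' ih =>
      rename_i y z
      rcases h' with rfl | ⟨rfl, h1, h2⟩
      · exact ⟨ih.1.trans (Conn.left _), ih.2.trans (Conn.left _)⟩
      · refine ⟨ih.1.trans (Conn.right _), ?_⟩
        have hc : y ≠ c := by
          rintro rfl
          exact hac ih.1
        have hd : y ≠ d := by
          rintro rfl
          exact hac (ih.1.trans (hcd ▸ (Conn.right c).symm))
        rw [← hag y h1 h2 hc hd]
        exact ih.2.trans (Conn.right _)
  by_contra hb
  have hbX : ¬ Relation.ReflTransGen r a b := fun h => hb (hr1 b h).2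
  set F : Finset V := Finset.univ.filter (fun x => Relation.ReflTransGen r a x) with hF
  have haF : a ∈ F := by simp [hF, Relation.ReflTransGen.refl]
  have hMF : ∀ v ∈ F, M v ∈ F := by
    intro v hv
    simp only [hF, Finset.mem_filter, Finset.mem_univ, true_and] at hv ⊢
    exact hv.tail (Or.inl rfl)
  have h1 : Even F.card := even_card_of_involution F M hM (fun v _ => hM' v) hMF
  have h2 : Even (F.erase a).card := by
    refine even_card_of_involution _ S hS (fun v _ => hS' v) fun v hv => ?_
    rw [Finset.mem_erase] at hv ⊢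
    obtain ⟨hva, hv⟩ := hv
    simp only [hF, Finset.mem_filter, Finset.mem_univ, true_and] at hv ⊢
    have hvb : v ≠ b := by
      rintro rfl
      exact hbX hv
    refine ⟨fun h => hvb ?_, hv.tail (Or.inr ⟨rfl, hva, hvb⟩)⟩
    rw [← hab, ← h, hS]
  rw [Finset.card_erase_of_mem haF] at h2
  have h3 : 0 < F.card := Finset.card_pos.2 ⟨a, haF⟩
  obtain ⟨m, hm⟩ := h1
  obtain ⟨n, hn⟩ := h2
  omega

/-- Toggling two `S`-edges lying on different alternating cycles merges the two cycles. -/
theorem conn_toggle {V : Type*} [Fintype V] [DecidableEq V] {M S S' : V → V}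
    (hM : Function.Involutive M) (hM' : ∀ v, M v ≠ v) (hS : Function.Involutive S)
    (hS' : ∀ v, S v ≠ v) (hSS' : Function.Involutive S') {a b c d : V} (hab : S a = b)
    (hcd : S c = d) (hac : ¬ Conn M S a c) (hbc : S' b = c)
    (hag : ∀ x, x ≠ a → x ≠ b → x ≠ c → x ≠ d → S' x = S x) :
    (∀ x y, Conn M S x y → Conn M S' x y) ∧ Conn M S' a c := by
  have h1 : Conn M S' a b := conn_of_toggle hM hM' hS hS' hab hcd hac hag
  have h2 : Conn M S' c d := conn_of_toggle hM hM' hS hS' hcd hab (fun h => hac h.symm)
    (fun x hc hd ha hb => hag x ha hb hc hd)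
  refine ⟨fun x y hxy => hxy.mono fun z => ?_, h1.trans (hbc ▸ Conn.right b)⟩
  by_cases ha : z = a
  · subst ha
    rwa [hab]
  by_cases hb : z = b
  · subst hb
    rw [← hab, hS, hab]
    exact h1.symm
  by_cases hc : z = c
  · subst hc
    rwa [hcd]
  by_cases hd : z = d
  · subst hd
    rw [← hcd, hS, hcd]
    exact h2.symm
  rw [← hag z ha hb hc hd]
  exact Conn.right z

end Pool.Agent.H679R2
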