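import Pool.Agent.H679R2.Oct.Defs
import Pool.Agent.NPC.Dec

/-!
# Membership in `NP`, and polynomial-time recognition of `A`-subgraph-free graphs
-/

namespace Pool.Agent.NPC.H679

open Pool.Agent.H679R2

/-! ### Tests -/

/-- adjacency test -/
def adjb (I : List ℕ × List (ℕ × ℕ)) (u v : ℕ) : Bool :=
  !decide (u = v) && (decide ((u, v) ∈ I.2) || decide ((v, u) ∈ I.2))

theorem adjb_poly {α : Type} [TEnc α] {I : α → List ℕ × List (ℕ × ℕ)} {u v : α → ℕ}
    (hI : Poly I) (hu : Poly u) (hv : Poly v) : Poly (fun a => adjb (I a) (u a) (v a)) := by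
  refine Poly.and (Poly.not (Poly.decide_eq hu hv)) (Poly.or ?_ ?_)
  · exact (Poly.decide_mem (Poly.pair hu hv) (Poly.snd hI)).congr fun a => by
      simp only [decide_eq_decide]
  · exact (Poly.decide_mem (Poly.pair hv hu) (Poly.snd hI)).congr fun a => by
      simp only [decide_eq_decide]

theorem adjb_iff (I : List ℕ × List (ℕ × ℕ)) (u v : {v : ℕ // v ∈ I.1}) :
    adjb I u.1 v.1 = true ↔ (toGraph I).Adj u v := by
  simp only [adjb, toGraph, Bool.and_eq_true, Bool.not_eq_true', decide_eq_false_iff_not,
    Bool.or_eq_true, decide_eq_true_eq]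
  constructor
  · rintro ⟨h1, h2⟩
    exact ⟨fun h => h1 (congrArg Subtype.val h), h2⟩
  · rintro ⟨h1, h2⟩
    exact ⟨fun h => h1 (Subtype.ext h), h2⟩

/-- test of absence of repetitions -/
def ndb (l : List ℕ) : Bool :=
  l.zipIdx.all (fun p => l.zipIdx.all (fun q => decide (p.2 = q.2 ∨ ¬ p.1 = q.1)))

theorem ndb_poly {α : Type} [TEnc α] {l : α → List ℕ} (hl : Poly l) :
    Poly (fun a => ndb (l a)) := by
  refine Poly.all (p := fun a (p : ℕ × ℕ) =>
    (l a).zipIdx.all (fun q => decide (p.2 = q.2 ∨ ¬ p.1 = q.1))) (Poly.zipIdx hl) ?_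
  refine Poly.all (p := fun (x : α × (ℕ × ℕ)) (q : ℕ × ℕ) =>
    decide (x.2.2 = q.2 ∨ ¬ x.2.1 = q.1)) (Poly.zipIdx (hl.comp (Poly.fst Poly.id))) ?_
  exact Poly.decide_or (Poly.decide_eq (Poly.snd (Poly.snd (Poly.fst Poly.id)))
      (Poly.snd (Poly.snd Poly.id)))
    (Poly.decide_not (Poly.decide_eq (Poly.fst (Poly.snd (Poly.fst Poly.id)))
      (Poly.fst (Poly.snd Poly.id))))

theorem ndb_iff (l : List ℕ) : ndb l = true ↔ l.Nodup := by
  simp only [ndb, List.all_eq_true, decide_eq_true_eq, Prod.forall,
    List.mem_zipIdx_iff_getElem?]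
  rw [List.nodup_iff_getElem?_ne_getElem?]
  constructor
  · intro h i j hij hj he
    have h1 : l[j]? = some l[j] := List.getElem?_eq_getElem hj
    rcases h l[j] i (by rw [he, h1]) l[j] j h1 with h2 | h2
    · omega
    · exact h2 rfl
  · intro h a i hi b j hj
    by_cases hij : i = j
    · exact Or.inl hij
    · refine Or.inr ?_
      rintro rfl
      rcases lt_or_gt_of_ne hij with h1 | h1
      · exact h i j h1 (List.getElem?_eq_some_iff.1 hj).1 (by rw [hi, hj])
      · exact h j i h1 (List.getElem?_eq_some_iff.1 hi).1 (by rw [hi, hj])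

/-- test that consecutive members are adjacent -/
def chb (I : List ℕ × List (ℕ × ℕ)) (w : List ℕ) : Bool :=
  (w.zip w.tail).all (fun q => adjb I q.1 q.2)

theorem chb_iff (I : List ℕ × List (ℕ × ℕ)) (w : List ℕ) :
    chb I w = true ↔ w.IsChain (fun u v => adjb I u v = true) := by
  unfold chb
  induction w with
  | nil => simp
  | cons a w ih =>
    cases w with
    | nil => simp
    | cons b w =>
      rw [List.isChain_cons_cons, ← ih]
      simp

/-- The certificates of Hamiltonian cycles: sequences of vertices. -/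
def cyb (I : List ℕ × List (ℕ × ℕ)) (w : List ℕ) : Bool :=
  chb I w && (decide (4 ≤ w.length) && (decide (w.head? = w.reverse.head?) && (ndb w.tail &&
    (I.1.all (fun v => decide (v ∈ w)) && w.all (fun v => decide (v ∈ I.1))))))

theorem cyb_poly : Poly (fun x : (List ℕ × List (ℕ × ℕ)) × List ℕ => cyb x.1 x.2) := by
  have h1 : Poly (fun x : (List ℕ × List (ℕ × ℕ)) × List ℕ => x.1) := Poly.fst Poly.id
  have h2 : Poly (fun x : (List ℕ × List (ℕ × ℕ)) × List ℕ => x.2) := Poly.snd Poly.id
  refine Poly.and ?_ (Poly.and ?_ (Poly.and ?_ (Poly.and ?_ (Poly.and ?_ ?_))))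
  · refine Poly.all (p := fun (x : (List ℕ × List (ℕ × ℕ)) × List ℕ) (q : ℕ × ℕ) =>
      adjb x.1 q.1 q.2) (Poly.zip h2 (Poly.tail h2)) ?_
    exact adjb_poly (Poly.fst (Poly.fst Poly.id)) (Poly.fst (Poly.snd Poly.id))
      (Poly.snd (Poly.snd Poly.id))
  · exact Poly.decide_le (Poly.const 4) (Poly.length h2)
  · exact Poly.decide_eq (Poly.head? h2) (Poly.head? (Poly.reverse h2))
  · exact ndb_poly (Poly.tail h2)
  · exact Poly.all (p := fun (x : (List ℕ × List (ℕ × ℕ)) × List ℕ) (v : ℕ) => decide (v ∈ x.2))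
      (Poly.fst h1) (Poly.decide_mem (Poly.snd Poly.id) (Poly.snd (Poly.fst Poly.id)))
  · exact Poly.all (p := fun (x : (List ℕ × List (ℕ × ℕ)) × List ℕ) (v : ℕ) => decide (v ∈ x.1.1))
      h2 (Poly.decide_mem (Poly.snd Poly.id) (Poly.fst (Poly.fst (Poly.fst Poly.id))))

theorem hamCycle_iff_aux {V : Type*} [DecidableEq V] {G : SimpleGraph V} {a : V} (p : G.Walk a a) :
    p.IsHamiltonianCycle ↔ p.support.tail.Nodup ∧ 3 ≤ p.length ∧ ∀ v, v ∈ p.support := by
  have key : 3 ≤ p.length → p.tail.support = p.support.tail := fun h =>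
    SimpleGraph.Walk.support_tail_of_not_nil p (by
      rw [SimpleGraph.Walk.not_nil_iff_lt_length]; omega)
  constructor
  · intro h
    exact ⟨h.isCycle.support_nodup, h.isCycle.three_le_length, h.mem_support⟩
  · rintro ⟨h1, h2, h3⟩
    have hp : p.IsCycle := by
      rw [SimpleGraph.Walk.isCycle_iff_isPath_tail_and_le_length, SimpleGraph.Walk.isPath_def,
        key h2]
      exact ⟨h1, h2⟩
    refine ⟨hp, hp.isPath_tail.isHamiltonian_of_mem fun v => ?_⟩
    have h4 := h3 v
    rw [key h2]
    rw [← SimpleGraph.Walk.cons_tail_support] at h4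
    rcases List.mem_cons.1 h4 with h | h
    · subst h
      exact SimpleGraph.Walk.end_mem_tail_support hp.not_nil
    · exact h

theorem ham_iff (I : List ℕ × List (ℕ × ℕ)) :
    HasHamCycle I ↔ ∃ w : List ℕ, sz w ≤ ((Polynomial.X + 2) * (Polynomial.X + 1) + 1 :
      Polynomial ℕ).eval (sz I) ∧ cyb I w = true := by
  constructor
  · rintro ⟨a, p, hp⟩
    obtain ⟨h1, h2, h3⟩ := (hamCycle_iff_aux p).1 hp
    set w : List ℕ := p.support.map Subtype.val with hw
    have hnd : w.tail.Nodup := by
      rw [hw, ← List.map_tail]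
      exact h1.map Subtype.val_injective
    have hmem : ∀ v ∈ w, v ∈ I.1 := by
      intro v hv
      rw [hw, List.mem_map] at hv
      obtain ⟨x, -, rfl⟩ := hv
      exact x.2
    have hlen : w.tail.length ≤ I.1.length := by
      have h4 : w.tail.toFinset ⊆ I.1.toFinset := by
        intro v hv
        rw [List.mem_toFinset] at hv ⊢
        exact hmem v (List.mem_of_mem_tail hv)
      have h5 := Finset.card_le_card h4
      rw [List.toFinset_card_of_nodup hnd] at h5
      exact h5.trans (List.toFinset_card_le _)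
    refine ⟨w, ?_, ?_⟩
    · have h4 := sz_le_length_mul w (sz I) (fun v hv => by
        have h5 := sz_le_of_mem (hmem v hv)
        have h6 : sz I = sz I.1 + sz I.2 + 1 := sz_pair I.1 I.2
        omega)
      have h5 := length_lt_sz I.1
      have h6 : sz I = sz I.1 + sz I.2 + 1 := sz_pair I.1 I.2
      have h7 : w.length ≤ sz I + 2 := by
        rw [List.length_tail] at hlen
        omega
      simp only [Polynomial.eval_add, Polynomial.eval_mul, Polynomial.eval_X,
        Polynomial.eval_ofNat, Polynomial.eval_one]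
      exact h4.trans (Nat.add_le_add_right (Nat.mul_le_mul_right _ h7) 1)
    · simp only [cyb, Bool.and_eq_true, decide_eq_true_eq, List.all_eq_true]
      refine ⟨?_, ?_, ?_, ?_, ?_, ?_⟩
      · rw [chb_iff, hw, List.isChain_map]
        exact p.isChain_adj_support.imp fun u v huv => (adjb_iff I u v).2 huv
      · rw [hw, List.length_map, SimpleGraph.Walk.length_support]
        omega
      · rw [hw, ← List.map_reverse, List.head?_map, List.head?_map]
        congr 1
        have hhd : ∀ {u v : {v : ℕ // v ∈ I.1}} (q : (toGraph I).Walk u v),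
            q.support.head? = some u := fun q => by cases q <;> rfl
        rw [← SimpleGraph.Walk.support_reverse, hhd, hhd]
      · rw [ndb_iff]
        exact hnd
      · intro v hv
        rw [hw, List.mem_map]
        exact ⟨⟨v, hv⟩, h3 _, rfl⟩
      · exact hmem
  · rintro ⟨w, -, hw⟩
    simp only [cyb, Bool.and_eq_true, decide_eq_true_eq, List.all_eq_true] at hw
    obtain ⟨h1, h2, h3, h4, h5, h6⟩ := hw
    rw [chb_iff] at h1
    rw [ndb_iff] at h4
    set l : List {v : ℕ // v ∈ I.1} := w.attach.map (fun v => ⟨v.1, h6 v.1 v.2⟩) with hl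
    have hlw : l.map Subtype.val = w := by
      rw [hl, List.map_map]
      exact List.attach_map_subtype_val w
    have hne : l ≠ [] := by
      intro h
      rw [h] at hlw
      simp at hlw
      rw [hlw] at h2
      simp at h2
    have hch : l.IsChain (toGraph I).Adj := by
      rw [← hlw, List.isChain_map] at h1
      exact h1.imp fun u v huv => (adjb_iff I u v).1 huv
    have hhead : l.head hne = l.getLast hne := by
      have e1 : l.head? = l.reverse.head? := by
        apply Option.map_injective (f := Subtype.val) Subtype.val_injective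
        rw [← List.head?_map, ← List.head?_map, List.map_reverse, hlw]
        exact h3
      rw [List.head?_reverse, List.head?_eq_some_head hne, List.getLast?_eq_some_getLast hne] at e1
      exact Option.some.inj e1
    set q := SimpleGraph.Walk.ofSupport l hne hch with hq
    refine ⟨l.head hne, q.copy rfl hhead.symm, ?_⟩
    rw [hamCycle_iff_aux]
    have hsup : (q.copy rfl hhead.symm).support = l := by
      rw [SimpleGraph.Walk.support_copy, hq, SimpleGraph.Walk.support_ofSupport]
    rw [hsup]
    refine ⟨?_, ?_, ?_⟩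
    · rw [← hlw, ← List.map_tail] at h4
      exact List.Nodup.of_map _ h4
    · have := SimpleGraph.Walk.length_support (q.copy rfl hhead.symm)
      rw [hsup] at this
      have h7 : l.length = w.length := by rw [hl, List.length_map, List.length_attach]
      omega
    · rintro ⟨v, hv⟩
      have h7 := h5 v hv
      rw [← hlw, List.mem_map] at h7
      obtain ⟨x, hx, hxv⟩ := h7
      have : x = ⟨v, hv⟩ := Subtype.ext hxv
      rw [← this]
      exact hx

/-! ### Subgraph-free graphs -/

/-- all sequences of `m` members of a list -/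
def tuples : ℕ → List ℕ → List (List ℕ)
  | 0, _ => [[]]
  | m + 1, l => (tuples m l).flatMap (fun t => l.map (fun v => v :: t))

theorem mem_tuples (m : ℕ) (l : List ℕ) (t : List ℕ) :
    t ∈ tuples m l ↔ t.length = m ∧ ∀ v ∈ t, v ∈ l := by
  induction m generalizing t with
  | zero =>
    simp only [tuples, List.mem_singleton, List.length_eq_zero_iff]
    constructor
    · rintro rfl
      simp
    · exact fun h => h.1
  | succ m ih =>
    simp only [tuples, List.mem_flatMap, List.mem_map]
    constructor
    · rintro ⟨s, hs, v, hv, rfl⟩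
      obtain ⟨h1, h2⟩ := (ih s).1 hs
      refine ⟨by simp [h1], ?_⟩
      intro u hu
      rcases List.mem_cons.1 hu with rfl | hu
      · exact hv
      · exact h2 u hu
    · rintro ⟨h1, h2⟩
      cases t with
      | nil => simp at h1
      | cons v s =>
        exact ⟨s, (ih s).2 ⟨by simpa using h1, fun u hu => h2 u (List.mem_cons_of_mem _ hu)⟩, v,
          h2 v (by simp), rfl⟩

theorem tuples_poly (m : ℕ) : Poly (tuples m) := by
  induction m with
  | zero => exact Poly.const _
  | succ m ih =>
    refine Poly.flatMap (F := fun (l : List ℕ) (t : List ℕ) => l.map (fun v => v :: t)) ih ?_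
    exact Poly.map (F := fun (p : List ℕ × List ℕ) (v : ℕ) => v :: p.2) (Poly.fst Poly.id)
      (Poly.cons (Poly.snd Poly.id) (Poly.snd (Poly.fst Poly.id)))

/-- For a fixed finite graph `A`, it can be decided in polynomial time whether a graph is
`A`-subgraph-free. -/
theorem free_decidable {W : Type} [Finite W] (A : SimpleGraph W) :
    ∃ d : (List ℕ × List (ℕ × ℕ)) → Bool, Poly d ∧ ∀ I, A.Free (toGraph I) ↔ d I = true := by
  classical
  have := Fintype.ofFinite W
  set m := Fintype.card W with hm
  set σ : W ≃ Fin m := Fintype.equivFin W with hσ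
  set EL : List (ℕ × ℕ) := ((Finset.univ : Finset (Fin m × Fin m)).filter
    (fun q => A.Adj (σ.symm q.1) (σ.symm q.2))).toList.map (fun q => (q.1.val, q.2.val)) with hEL
  set d : (List ℕ × List (ℕ × ℕ)) → Bool := fun I => !((tuples m I.1).any (fun t =>
    ndb t && EL.all (fun q => adjb I (t.getD q.1 0) (t.getD q.2 0)))) with hd
  refine ⟨d, ?_, fun I => ?_⟩
  · refine Poly.not (Poly.any (p := fun (I : List ℕ × List (ℕ × ℕ)) (t : List ℕ) =>
      ndb t && EL.all (fun q => adjb I (t.getD q.1 0) (t.getD q.2 0)))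
      ((tuples_poly m).comp (Poly.fst Poly.id)) (Poly.and (ndb_poly (Poly.snd Poly.id)) ?_))
    refine Poly.all (p := fun (x : (List ℕ × List (ℕ × ℕ)) × List ℕ) (q : ℕ × ℕ) =>
      adjb x.1 (x.2.getD q.1 0) (x.2.getD q.2 0)) (Poly.const EL) ?_
    exact adjb_poly (Poly.fst (Poly.fst Poly.id))
      (Poly.getD (Poly.snd (Poly.fst Poly.id)) (Poly.fst (Poly.snd Poly.id)) (Poly.const 0))
      (Poly.getD (Poly.snd (Poly.fst Poly.id)) (Poly.snd (Poly.snd Poly.id)) (Poly.const 0))
  · have hELm : ∀ a b : W, A.Adj a b → ((σ a).val, (σ b).val) ∈ EL := by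
      intro a b hab
      rw [hEL, List.mem_map]
      exact ⟨(σ a, σ b), by simp [hab], rfl⟩
    have hELm' : ∀ q ∈ EL, ∃ a b : W, A.Adj a b ∧ q = ((σ a).val, (σ b).val) := by
      intro q hq
      rw [hEL, List.mem_map] at hq
      obtain ⟨x, hx, rfl⟩ := hq
      simp only [Finset.mem_toList, Finset.mem_filter, Finset.mem_univ, true_and] at hx
      exact ⟨_, _, hx, by simp⟩
    rw [show A.Free (toGraph I) ↔ ¬ Nonempty (A.Copy (toGraph I)) from Iff.rfl, hd]
    simp only [Bool.not_eq_true', List.any_eq_false, Bool.and_eq_true, List.all_eq_true, not_and]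
    constructor
    · intro h t ht hnd hadj
      rw [mem_tuples] at ht
      rw [ndb_iff] at hnd
      refine h ⟨⟨⟨fun a => ⟨t.getD (σ a).val 0, ht.2 _ ?_⟩, ?_⟩, ?_⟩⟩
      · rw [List.getD_eq_getElem _ _ (by rw [ht.1]; exact (σ a).isLt)]
        exact List.getElem_mem _
      · intro a b hab
        rw [← adjb_iff]
        exact hadj _ (hELm a b hab)
      · intro a b hab
        have h1 := congrArg Subtype.val hab
        change t.getD (σ a).val 0 = t.getD (σ b).val 0 at h1
        rw [List.getD_eq_getElem _ _ (by rw [ht.1]; exact (σ a).isLt),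
          List.getD_eq_getElem _ _ (by rw [ht.1]; exact (σ b).isLt)] at h1
        have h2 := (List.Nodup.getElem_inj_iff hnd).1 h1
        exact σ.injective (Fin.ext h2)
    · rintro h ⟨φ⟩
      refine h (List.ofFn (fun i : Fin m => (φ (σ.symm i)).1)) ?_ ?_ ?_
      · rw [mem_tuples]
        refine ⟨List.length_ofFn, fun v hv => ?_⟩
        rw [List.mem_ofFn] at hv
        obtain ⟨i, rfl⟩ := hv
        exact (φ (σ.symm i)).2
      · rw [ndb_iff, List.nodup_ofFn]
        intro i j hij
        exact σ.symm.injective (φ.injective (Subtype.ext hij))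
      · intro q hq
        obtain ⟨a, b, hab, rfl⟩ := hELm' q hq
        have hget : ∀ a, (List.ofFn (fun i : Fin m => (φ (σ.symm i)).1)).getD (σ a).val 0 =
            (φ a).1 := by
          intro a
          rw [List.getD_eq_getElem _ _ (by rw [List.length_ofFn]; exact (σ a).isLt)]
          simp
        change adjb I (List.getD _ (σ a).val 0) (List.getD _ (σ b).val 0) = true
        rw [hget, hget, adjb_iff]
        exact φ.toHom.map_adj hab

/-- Membership in `NP` of the Hamiltonian cycle problem on the graphs satisfying a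
polynomial-time decidable condition. -/
theorem inNP_ham {P : (List ℕ × List (ℕ × ℕ)) → Prop} {d : (List ℕ × List (ℕ × ℕ)) → Bool}
    (hd : Poly d) (hP : ∀ I, P I ↔ d I = true) : InNPP (fun I => P I ∧ HasHamCycle I) := by
  refine inNPP_of (R := fun x : (List ℕ × List (ℕ × ℕ)) × List ℕ => d x.1 && cyb x.1 x.2)
    (Poly.and (hd.comp (Poly.fst Poly.id)) cyb_poly)
    ((Polynomial.X + 2) * (Polynomial.X + 1) + 1 : Polynomial ℕ) fun I => ?_
  rw [ham_iff, hP]
  simp only [Bool.and_eq_true]
  constructor
  · rintro ⟨h1, w, hw, hc⟩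
    exact ⟨w, hw, h1, hc⟩
  · rintro ⟨w, hw, h1, hc⟩
    exact ⟨h1, w, hw, hc⟩

end Pool.Agent.NPC.H679
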