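import Mathlib

/-!
# Cyclic successor with the same key
-/

namespace Pool.Agent.H679R2

/-- there is an element with the same key, at cyclic distance at most `N`. -/
theorem next_exists (N : ℕ) (key : ℕ → ℕ) (k : ℕ) (hk : k < N) :
    ∃ i, i < N ∧ key ((k + 1 + i) % N) = key k := by
  refine ⟨N - 1, by omega, ?_⟩
  have : k + 1 + (N - 1) = k + N := by omega
  rw [this, Nat.add_mod_right, Nat.mod_eq_of_lt hk]

open Classical in
/-- offset of the next element with the same key -/
noncomputable def off (N : ℕ) (key : ℕ → ℕ) (k : ℕ) (hk : k < N) : ℕ :=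
  Nat.find (next_exists N key k hk)

theorem off_lt (N : ℕ) (key : ℕ → ℕ) (k : ℕ) (hk : k < N) : off N key k hk < N := by
  classical
  exact (Nat.find_spec (next_exists N key k hk)).1

theorem off_key (N : ℕ) (key : ℕ → ℕ) (k : ℕ) (hk : k < N) :
    key ((k + 1 + off N key k hk) % N) = key k := by
  classical
  exact (Nat.find_spec (next_exists N key k hk)).2

theorem off_min (N : ℕ) (key : ℕ → ℕ) (k : ℕ) (hk : k < N) (i : ℕ) (hi : i < N)
    (h : key ((k + 1 + i) % N) = key k) : off N key k hk ≤ i := by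
  classical
  exact Nat.find_min' _ ⟨hi, h⟩

/-- The next element (cyclically) with the same key. -/
noncomputable def nxt (N : ℕ) (key : ℕ → ℕ) (k : Fin N) : Fin N :=
  ⟨(k.val + 1 + off N key k.val k.isLt) % N, Nat.mod_lt _ (by have := k.isLt; omega)⟩

theorem nxt_key (N : ℕ) (key : ℕ → ℕ) (k : Fin N) : key (nxt N key k).val = key k.val :=
  off_key N key k.val k.isLt

theorem mod_cases (N a : ℕ) (h : a < 2 * N) : a % N = a ∧ a < N ∨ a % N = a - N ∧ N ≤ a := by
  by_cases h1 : a < N
  · exact Or.inl ⟨Nat.mod_eq_of_lt h1, h1⟩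
  · refine Or.inr ⟨?_, by omega⟩
    rw [Nat.mod_eq_sub_mod (by omega), Nat.mod_eq_of_lt (by omega)]

theorem nxt_inj_aux (N : ℕ) (key : ℕ → ℕ) (k k' : Fin N) (h : nxt N key k = nxt N key k')
    (hlt : k.val < k'.val) : False := by
  have h1 := congrArg Fin.val h
  have hk := k.isLt
  have hk' := k'.isLt
  have hkey : key k.val = key k'.val := by
    rw [← nxt_key N key k, ← nxt_key N key k', h]
  have e1 := off_lt N key k.val hk
  have e2 := off_lt N key k'.val hk'
  have m1 := off_min N key k.val hk (k'.val - k.val - 1) (by omega) (by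
    have : k.val + 1 + (k'.val - k.val - 1) = k'.val := by omega
    rw [this, Nat.mod_eq_of_lt hk', hkey])
  have m2 := off_min N key k'.val hk' (N + k.val - k'.val - 1) (by omega) (by
    have : k'.val + 1 + (N + k.val - k'.val - 1) = k.val + N := by omega
    rw [this, Nat.add_mod_right, Nat.mod_eq_of_lt hk, hkey])
  simp only [nxt] at h1
  rcases mod_cases N (k.val + 1 + off N key k.val hk) (by omega) with ⟨c1, c1'⟩ | ⟨c1, c1'⟩ <;>
    rcases mod_cases N (k'.val + 1 + off N key k'.val hk') (by omega) with ⟨c2, c2'⟩ | ⟨c2, c2'⟩ <;>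
    rw [c1, c2] at h1 <;> omega

theorem nxt_injective (N : ℕ) (key : ℕ → ℕ) : Function.Injective (nxt N key) := by
  intro k k' h
  rcases lt_trichotomy k.val k'.val with hlt | heq | hlt
  · exact (nxt_inj_aux N key k k' h hlt).elim
  · exact Fin.ext heq
  · exact (nxt_inj_aux N key k' k h.symm hlt).elim

/-- Elements with the same key are reached by iterating. -/
theorem nxt_orbit (N : ℕ) (key : ℕ → ℕ) : ∀ (d : ℕ) (k k' : Fin N), key k.val = key k'.val →
    (k'.val + N - k.val - 1) % N = d → ∃ n, 1 ≤ n ∧ (nxt N key)^[n] k = k' := by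
  intro d
  induction d using Nat.strong_induction_on with
  | _ d ih =>
    intro k k' hkey hd
    have hk := k.isLt
    have hk' := k'.isLt
    have hdN : d < N := by rw [← hd]; exact Nat.mod_lt _ (by omega)
    have hkd : (k.val + 1 + d) % N = k'.val := by
      rcases mod_cases N (k'.val + N - k.val - 1) (by omega) with ⟨c1, c1'⟩ | ⟨c1, c1'⟩ <;>
        rcases mod_cases N (k.val + 1 + d) (by omega) with ⟨c2, c2'⟩ | ⟨c2, c2'⟩ <;>
        rw [c2] <;> omega
    have m1 := off_min N key k.val hk d hdN (by rw [hkd, hkey])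
    by_cases ho : off N key k.val hk = d
    · refine ⟨1, le_rfl, ?_⟩
      ext
      simp only [Function.iterate_one, nxt]
      rw [ho, hkd]
    · obtain ⟨n, hn, hn'⟩ := ih (d - off N key k.val hk - 1) (by omega) (nxt N key k) k'
        ((nxt_key N key k).trans hkey) (by
          simp only [nxt]
          rcases mod_cases N (k.val + 1 + off N key k.val hk) (by omega) with ⟨c1, c1'⟩ | ⟨c1, c1'⟩ <;>
            rcases mod_cases N (k.val + 1 + d) (by omega) with ⟨c2, c2'⟩ | ⟨c2, c2'⟩ <;>
            rcases mod_cases N (k'.val + N - (k.val + 1 + off N key k.val hk) % N - 1) (by omega)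
              with ⟨c3, c3'⟩ | ⟨c3, c3'⟩ <;> rw [c3] <;> rw [c1] at * <;> omega)
      exact ⟨n + 1, by omega, by rw [Function.iterate_succ_apply, hn']⟩

/-- The successor as a permutation. -/
noncomputable def nxtPerm (N : ℕ) (key : ℕ → ℕ) : Equiv.Perm (Fin N) :=
  Equiv.ofBijective _ (Finite.injective_iff_bijective.1 (nxt_injective N key))

@[simp] theorem nxtPerm_apply (N : ℕ) (key : ℕ → ℕ) (k : Fin N) :
    nxtPerm N key k = nxt N key k := rfl

end Pool.Agent.H679R2
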