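import Pool.Agent.H679R2.Oct.Inst

/-!
# The reduction is computable in polynomial time
-/

namespace Pool.Agent.NPC.H679

open Pool.Agent.H679R2

theorem nx_poly {α : Type} [TEnc α] {keys : α → List ℕ} {k : α → ℕ} (hkeys : Poly keys)
    (hk : Poly k) : Poly (fun a => nx (keys a) (k a)) := by
  refine (Poly.optCases (g := fun _ => 0) (h := fun _ (j : ℕ) => j)
    (Poly.head? (Poly.filter (p := fun a j => decide ((keys a).getD j 0 = (keys a).getD (k a) 0))
      (Poly.map (F := fun a i => (k a + 1 + i) % (keys a).length) (Poly.range_length hkeys)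
        (Poly.mod (Poly.add (Poly.succ (hk.comp (Poly.fst Poly.id))) (Poly.snd Poly.id))
          (Poly.length (hkeys.comp (Poly.fst Poly.id)))))
      (Poly.decide_eq (Poly.getD (hkeys.comp (Poly.fst Poly.id)) (Poly.snd Poly.id) (Poly.const 0))
        (Poly.getD (hkeys.comp (Poly.fst Poly.id)) (hk.comp (Poly.fst Poly.id)) (Poly.const 0)))))
    (Poly.const 0) (Poly.snd Poly.id)).congr fun a => ?_
  unfold nx
  generalize (List.filter (fun j => decide ((keys a).getD j 0 = (keys a).getD (k a) 0))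
    (List.map (fun i => (k a + 1 + i) % (keys a).length) (List.range (keys a).length))).head? = x
  cases x <;> rfl

theorem occ_poly : Poly occ :=
  Poly.flatMap (F := fun _ (p : (Lit ℕ × Lit ℕ × Lit ℕ) × ℕ) =>
    [(p.2, p.1.1), (p.2, p.1.2.1), (p.2, p.1.2.2)]) (Poly.zipIdx Poly.id)
    (Poly.cons (Poly.pair (Poly.snd (Poly.snd Poly.id)) (Poly.fst (Poly.fst (Poly.snd Poly.id))))
      (Poly.cons (Poly.pair (Poly.snd (Poly.snd Poly.id))
        (Poly.fst (Poly.snd (Poly.fst (Poly.snd Poly.id)))))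
      (Poly.cons (Poly.pair (Poly.snd (Poly.snd Poly.id))
        (Poly.snd (Poly.snd (Poly.fst (Poly.snd Poly.id))))) (Poly.const []))))

theorem cK_poly : Poly cK :=
  Poly.map (F := fun _ (x : ℕ × Bool × ℕ) => x.1) Poly.id (Poly.fst (Poly.snd Poly.id))

theorem vK_poly : Poly vK :=
  Poly.map (F := fun _ (x : ℕ × Bool × ℕ) => x.2.2) Poly.id (Poly.snd (Poly.snd (Poly.snd Poly.id)))

theorem zK_poly : Poly zK :=
  Poly.map (F := fun _ (_ : ℕ × Bool × ℕ) => 0) Poly.id (Poly.const 0)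

theorem sK_poly : Poly sK :=
  Poly.map (F := fun _ (x : ℕ × Bool × ℕ) => x.2.1) Poly.id (Poly.fst (Poly.snd (Poly.snd Poly.id)))

theorem T0N_poly {α : Type} [TEnc α] {b : α → Bool} (hb : Poly b) : Poly (fun a => T0N (b a)) :=
  Poly.cond hb (Poly.const 3) (Poly.const 6)

theorem T1N_poly {α : Type} [TEnc α] {b : α → Bool} (hb : Poly b) : Poly (fun a => T1N (b a)) :=
  Poly.cond hb (Poly.const 4) (Poly.const 7)

theorem lnE_poly : Poly (fun p : List (ℕ × Bool × ℕ) × ℕ => lnE p.1 p.2) := by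
  have h1 : Poly (fun p : List (ℕ × Bool × ℕ) × ℕ => p.1) := Poly.fst Poly.id
  have h2 : Poly (fun p : List (ℕ × Bool × ℕ) × ℕ => p.2) := Poly.snd Poly.id
  have hc := nx_poly (cK_poly.comp h1) h2
  have hv := nx_poly (vK_poly.comp h1) h2
  have hz := nx_poly (zK_poly.comp h1) h2
  have hs := Poly.getD (d := fun _ => false) (sK_poly.comp h1) h2 (Poly.const false)
  have hs' := Poly.not (Poly.getD (d := fun _ => false) (sK_poly.comp h1) hv (Poly.const false))
  unfold lnE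
  exact Poly.cons (Poly.pair (Poly.pair h2 (Poly.const 1)) (Poly.pair hc (Poly.const 0)))
    (Poly.cons (Poly.pair (Poly.pair h2 (Poly.const 2)) (Poly.pair h2 (Poly.const 8)))
    (Poly.cons (Poly.pair (Poly.pair h2 (Poly.const 5)) (Poly.pair h2 (Poly.const 10)))
    (Poly.cons (Poly.pair (Poly.pair h2 (Poly.const 9)) (Poly.pair hz (Poly.const 11)))
    (Poly.cons (Poly.pair (Poly.pair h2 (T0N_poly hs)) (Poly.pair hv (T0N_poly hs')))
    (Poly.cons (Poly.pair (Poly.pair h2 (T1N_poly hs)) (Poly.pair hv (T1N_poly hs')))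
      (Poly.const []))))))

theorem E3_poly (h : ℕ) : Poly (fun o => E3 o h) := by
  refine Poly.flatMap (F := fun (o : List (ℕ × Bool × ℕ)) (k : ℕ) =>
    (List.range 12).flatMap (fun t => (List.range h).map (fun i => ((k, t, i), (k, t, i + 1)))) ++
    clE.map (fun q => ((k, q.1, 0), (k, q.2, 0))) ++
    (lnE o k).map (fun q => ((q.1.1, q.1.2, h), (q.2.1, q.2.2, h)))) (Poly.range_length Poly.id) ?_
  refine Poly.append (Poly.append ?_ ?_) ?_
  · refine Poly.flatMap (F := fun (p : List (ℕ × Bool × ℕ) × ℕ) (t : ℕ) =>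
      (List.range h).map (fun i => ((p.2, t, i), (p.2, t, i + 1)))) (Poly.const _) ?_
    refine Poly.map (F := fun (p : (List (ℕ × Bool × ℕ) × ℕ) × ℕ) (i : ℕ) =>
      ((p.1.2, p.2, i), (p.1.2, p.2, i + 1))) (Poly.const _) ?_
    have h1 : Poly (fun p : ((List (ℕ × Bool × ℕ) × ℕ) × ℕ) × ℕ => p.1.1.2) :=
      Poly.snd (Poly.fst (Poly.fst Poly.id))
    have h2 : Poly (fun p : ((List (ℕ × Bool × ℕ) × ℕ) × ℕ) × ℕ => p.1.2) :=
      Poly.snd (Poly.fst Poly.id)
    have h3 : Poly (fun p : ((List (ℕ × Bool × ℕ) × ℕ) × ℕ) × ℕ => p.2) := Poly.snd Poly.id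
    exact Poly.pair (Poly.pair h1 (Poly.pair h2 h3)) (Poly.pair h1 (Poly.pair h2 (Poly.succ h3)))
  · refine Poly.map (F := fun (p : List (ℕ × Bool × ℕ) × ℕ) (q : ℕ × ℕ) =>
      ((p.2, q.1, 0), (p.2, q.2, 0))) (Poly.const _) ?_
    have h1 : Poly (fun p : (List (ℕ × Bool × ℕ) × ℕ) × ℕ × ℕ => p.1.2) :=
      Poly.snd (Poly.fst Poly.id)
    exact Poly.pair (Poly.pair h1 (Poly.pair (Poly.fst (Poly.snd Poly.id)) (Poly.const 0)))
      (Poly.pair h1 (Poly.pair (Poly.snd (Poly.snd Poly.id)) (Poly.const 0)))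
  · refine Poly.map (F := fun (_ : List (ℕ × Bool × ℕ) × ℕ) (q : (ℕ × ℕ) × (ℕ × ℕ)) =>
      ((q.1.1, q.1.2, h), (q.2.1, q.2.2, h))) lnE_poly ?_
    have h1 : Poly (fun p : (List (ℕ × Bool × ℕ) × ℕ) × ((ℕ × ℕ) × (ℕ × ℕ)) => p.2) :=
      Poly.snd Poly.id
    exact Poly.pair (Poly.pair (Poly.fst (Poly.fst h1)) (Poly.pair (Poly.snd (Poly.fst h1))
      (Poly.const h))) (Poly.pair (Poly.fst (Poly.snd h1)) (Poly.pair (Poly.snd (Poly.snd h1))
      (Poly.const h)))

theorem cd_poly (h : ℕ) : Poly (cd h) :=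
  Poly.add (Poly.snd (Poly.snd Poly.id)) (Poly.mul (Poly.const (h + 1))
    (Poly.add (Poly.fst (Poly.snd Poly.id)) (Poly.mul (Poly.const 12) (Poly.fst Poly.id))))

theorem instOf_poly (h : ℕ) : Poly (fun o => instOf o h) := by
  refine Poly.pair ?_ ?_
  · exact ((UPoly.mul (UPoly.mul (UPoly.length Poly.id) (UPoly.const 12))
      (UPoly.const (h + 1))).range).congr fun o => rfl
  · exact Poly.map (F := fun (_ : List (ℕ × Bool × ℕ)) (q : (ℕ × ℕ × ℕ) × (ℕ × ℕ × ℕ)) =>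
      (cd h q.1, cd h q.2)) (E3_poly h) (Poly.pair ((cd_poly h).comp (Poly.fst (Poly.snd Poly.id)))
      ((cd_poly h).comp (Poly.snd (Poly.snd Poly.id))))

theorem red_poly (h : ℕ) : Poly (red h) := by
  refine (Poly.cond (Poly.isEmpty Poly.id) (Poly.const ([0, 1, 2], [(0, 1), (1, 2), (2, 0)]))
    ((instOf_poly h).comp occ_poly)).congr fun φ => ?_
  unfold red
  cases φ.isEmpty <;> rfl

/-- The Hamiltonian cycle problem is hard on `H_j`-subgraph-free graphs, `j ≥ 6`. -/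
theorem hardPr_ham (j : ℕ) (hj : 6 ≤ j) :
    HardPr (fun I => (Hj j).Free (toGraph I)) HasHamCycle :=
  hardI_SAT3.toHardPr.trans (red_poly j) (fun φ _ => red_free j j hj le_rfl φ)
    (fun φ _ => red_ham j (by omega) φ)

end Pool.Agent.NPC.H679
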