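import Pool.Agent.H679R2.Oct.Free
import Pool.Agent.H679R2.Oct.Next
import Pool.Agent.NPC.Sat

/-!
# The reduction from 3SAT to the Hamiltonian cycle problem: correctness
-/

namespace Pool.Agent.H679R2

open Pool.Agent.NPC

/-! ### The system of a list of literal occurrences -/

/-- The literal occurrences of a 3-CNF: index of the clause, sign, variable. -/
def occ (φ : List (Lit ℕ × Lit ℕ × Lit ℕ)) : List (ℕ × Bool × ℕ) :=
  φ.zipIdx.flatMap (fun p => [(p.2, p.1.1), (p.2, p.1.2.1), (p.2, p.1.2.2)])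

/-- clause of an occurrence -/
def cK (o : List (ℕ × Bool × ℕ)) : List ℕ := o.map (fun x => x.1)
/-- variable of an occurrence -/
def vK (o : List (ℕ × Bool × ℕ)) : List ℕ := o.map (fun x => x.2.2)
/-- constant key -/
def zK (o : List (ℕ × Bool × ℕ)) : List ℕ := o.map (fun _ => 0)
/-- sign of an occurrence -/
def sK (o : List (ℕ × Bool × ℕ)) : List Bool := o.map (fun x => x.2.1)

/-- The system of a list of occurrences. -/
noncomputable def sysOf (o : List (ℕ × Bool × ℕ)) : Sys (Fin o.length) where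
  α := nxtPerm o.length (fun i => (cK o).getD i 0)
  β := nxtPerm o.length (fun i => (vK o).getD i 0)
  γ := nxtPerm o.length (fun i => (zK o).getD i 0)
  sg := fun k => (sK o).getD k.val false

theorem getD_map {α β : Type} (l : List α) (f : α → β) (i : ℕ) (hi : i < l.length) (d : β) :
    (l.map f).getD i d = f (l[i]) := by
  simp [List.getD_eq_getElem?_getD, hi]

theorem sys_ham_iff (o : List (ℕ × Bool × ℕ)) (h0 : 0 < o.length) (h : ℕ) (hh : 1 ≤ h) :
    (∃ a, ∃ p : ((sysOf o).G h).Walk a a, p.IsHamiltonianCycle) ↔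
      ∃ τ : ℕ → Bool, ∀ x ∈ o, ∃ y ∈ o, y.1 = x.1 ∧ τ y.2.2 = y.2.1 := by
  have : Nonempty (Fin o.length) := ⟨⟨0, h0⟩⟩
  have hv : ∀ k : Fin o.length, (vK o).getD k.val 0 = (o[k.val]).2.2 := fun k =>
    getD_map o _ _ k.isLt _
  have hc : ∀ k : Fin o.length, (cK o).getD k.val 0 = (o[k.val]).1 := fun k =>
    getD_map o _ _ k.isLt _
  have hs : ∀ k : Fin o.length, (sysOf o).sg k = (o[k.val]).2.1 := fun k =>
    getD_map o _ _ k.isLt _
  have hz : ∀ k : Fin o.length, (zK o).getD k.val 0 = 0 := fun k => getD_map o _ _ k.isLt _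
  constructor
  · rintro ⟨a, p, hp⟩
    obtain ⟨y, hy1, hy2⟩ := (sysOf o).of_ham h hh hp
    set x : Fin o.length → Bool := fun k => (y k == (sysOf o).sg k) with hx
    have hx1 : ∀ (n : ℕ) k, x k = true → x ((nxt o.length (fun i => (vK o).getD i 0))^[n] k) = true := by
      intro n
      induction n with
      | zero => exact fun k hk => hk
      | succ n ih => exact fun k hk => ih _ (hy1 k hk)
    have hx2 : ∀ k k', (o[k.val]).2.2 = (o[k'.val]).2.2 → x k = true → x k' = true := by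
      intro k k' hkk hk
      obtain ⟨n, -, rfl⟩ := nxt_orbit o.length (fun i => (vK o).getD i 0) _ k k'
        (by simp only [hv, hkk]) rfl
      exact hx1 n k hk
    have hx3 : ∀ k k', (o[k.val]).2.2 = (o[k'.val]).2.2 → x k = x k' := by
      intro k k' hkk
      cases h1 : x k with
      | true => exact (hx2 k k' hkk h1).symm
      | false =>
        cases h2 : x k' with
        | true => rw [hx2 k' k hkk.symm h2] at h1; exact absurd h1 (by simp)
        | false => rfl
    classical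
    refine ⟨fun v => if hv : ∃ k : Fin o.length, (o[k.val]).2.2 = v then x hv.choose else false,
      ?_⟩
    intro z hzo
    obtain ⟨i, hi, rfl⟩ := List.mem_iff_getElem.1 hzo
    obtain ⟨n, hn⟩ := hy2 ⟨i, hi⟩
    have hkey : ∀ (m : ℕ) (k : Fin o.length),
        (cK o).getD (((sysOf o).α ^ m) k).val 0 = (cK o).getD k.val 0 := by
      intro m
      induction m with
      | zero => exact fun k => rfl
      | succ m ih =>
        intro k
        rw [pow_succ, Equiv.Perm.mul_apply, ih]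
        exact nxt_key o.length (fun i => (cK o).getD i 0) k
    have hkey' : ∀ (n : ℤ) (k : Fin o.length),
        (cK o).getD (((sysOf o).α ^ n) k).val 0 = (cK o).getD k.val 0 := by
      intro n k
      obtain ⟨m, rfl | rfl⟩ := n.eq_nat_or_neg
      · rw [zpow_natCast]
        exact hkey m k
      · have h1 := hkey m (((sysOf o).α ^ (-(m : ℤ))) k)
        rw [← zpow_natCast, ← Equiv.Perm.mul_apply, ← zpow_add, add_neg_cancel, zpow_zero,
          Equiv.Perm.one_apply] at h1
        exact h1.symm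
    set j := ((sysOf o).α ^ n) ⟨i, hi⟩ with hj
    refine ⟨o[j.val], List.getElem_mem _, ?_, ?_⟩
    · have := hkey' n ⟨i, hi⟩
      rw [← hj, hc, hc] at this
      exact this
    · have hex : ∃ k : Fin o.length, (o[k.val]).2.2 = (o[j.val]).2.2 := ⟨j, rfl⟩
      simp only
      rw [dif_pos hex, hx3 _ j hex.choose_spec]
      simp only [hx, hn, hs]
      cases (o[j.val]).2.1 <;> rfl
  · rintro ⟨τ, hτ⟩
    refine (sysOf o).exists_ham h hh (fun k => τ (o[k.val]).2.2 == (o[k.val]).2.1) ?_ ?_ ?_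
    · intro k
      have h1 : ∀ k : Fin o.length, ((τ (o[k.val]).2.2 == (o[k.val]).2.1) == (sysOf o).sg k) =
          τ (o[k.val]).2.2 := by
        intro k
        rw [hs]
        cases τ (o[k.val]).2.2 <;> cases (o[k.val]).2.1 <;> rfl
      rw [h1, h1]
      have h2 := nxt_key o.length (fun i => (vK o).getD i 0) k
      simp only [hv] at h2
      change τ (o[(nxt o.length (fun i => (vK o).getD i 0) k).val]).2.2 = _
      rw [h2]
    · intro k
      obtain ⟨y, hy, hy1, hy2⟩ := hτ (o[k.val]) (List.getElem_mem _)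
      obtain ⟨i, hi, rfl⟩ := List.mem_iff_getElem.1 hy
      refine ⟨⟨i, hi⟩, by simp [hy2], ?_⟩
      obtain ⟨n, hn, hn'⟩ := nxt_orbit o.length (fun i => (cK o).getD i 0) _ ⟨i, hi⟩ k
        (by simp only [hc]; have := hc ⟨i, hi⟩; simp only at this; rw [this, hy1]) rfl
      obtain ⟨m, rfl⟩ : ∃ m, n = m + 1 := ⟨n - 1, by omega⟩
      rw [Function.iterate_succ_apply] at hn'
      exact ⟨m, hn'⟩
    · intro j k
      obtain ⟨n, -, hn⟩ := nxt_orbit o.length (fun i => (zK o).getD i 0) _ j k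
        (by simp only [hz]) rfl
      exact ⟨n, hn⟩

theorem sat3_iff (φ : List (Lit ℕ × Lit ℕ × Lit ℕ)) :
    SAT3 φ ↔ ∃ τ : ℕ → Bool, ∀ x ∈ occ φ, ∃ y ∈ occ φ, y.1 = x.1 ∧ τ y.2.2 = y.2.1 := by
  have hmem : ∀ x : ℕ × Bool × ℕ, x ∈ occ φ ↔ ∃ c i, φ[i]? = some c ∧
      (x = (i, c.1) ∨ x = (i, c.2.1) ∨ x = (i, c.2.2)) := by
    intro x
    simp only [occ, List.mem_flatMap]
    constructor
    · rintro ⟨⟨c, i⟩, h1, h2⟩
      exact ⟨c, i, List.mem_zipIdx_iff_getElem?.1 h1, by simpa using h2⟩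
    · rintro ⟨c, i, h1, h2⟩
      exact ⟨(c, i), List.mem_zipIdx_iff_getElem?.2 h1, by simpa using h2⟩
  constructor
  · rintro ⟨τ, hτ⟩
    refine ⟨τ, fun x hx => ?_⟩
    obtain ⟨c, i, hc, hx⟩ := (hmem x).1 hx
    have hxi : x.1 = i := by rcases hx with rfl | rfl | rfl <;> rfl
    rcases hτ c (List.mem_of_getElem? hc) with h | h | h
    · exact ⟨(i, c.1), (hmem _).2 ⟨c, i, hc, Or.inl rfl⟩, hxi.symm, h⟩
    · exact ⟨(i, c.2.1), (hmem _).2 ⟨c, i, hc, Or.inr (Or.inl rfl)⟩, hxi.symm, h⟩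
    · exact ⟨(i, c.2.2), (hmem _).2 ⟨c, i, hc, Or.inr (Or.inr rfl)⟩, hxi.symm, h⟩
  · rintro ⟨τ, hτ⟩
    refine ⟨τ, fun c hc => ?_⟩
    obtain ⟨i, hi⟩ := List.mem_iff_getElem?.1 hc
    obtain ⟨y, hy, hy1, hy2⟩ := hτ (i, c.1) ((hmem _).2 ⟨c, i, hi, Or.inl rfl⟩)
    obtain ⟨c', i', hc', hy'⟩ := (hmem y).1 hy
    have hyi : i' = i := by
      rcases hy' with rfl | rfl | rfl <;> exact hy1
    subst hyi
    rw [hi] at hc'
    cases hc'
    rcases hy' with rfl | rfl | rfl
    · exact Or.inl hy2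
    · exact Or.inr (Or.inl hy2)
    · exact Or.inr (Or.inr hy2)

theorem occ_eq_nil (φ : List (Lit ℕ × Lit ℕ × Lit ℕ)) : occ φ = [] ↔ φ = [] := by
  constructor
  · intro h
    cases φ with
    | nil => rfl
    | cons c φ => simp [occ, List.zipIdx_cons] at h
  · rintro rfl
    rfl

end Pool.Agent.H679R2
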