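import Pool.Agent.H679R2.Oct.Ham

/-!
# The system of octagon switches and free switches

Every literal occurrence `k` carries an octagon (terminals `0..7`) and a square (terminals
`8..11`).  The involution `M` joins the terminals in pairs; the involution `S y z` describes how
the octagons (states `y`) and squares (states `z`) join their own terminals.
-/

namespace Pool.Agent.H679R2

/-- Successor permutations of the literal occurrences (in the clause, among the occurrences of the
variable, in the list of all occurrences), and the signs of the literals. -/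
structure Sys (ι : Type*) where
  /-- next occurrence in the same clause -/
  α : Equiv.Perm ι
  /-- next occurrence of the same variable -/
  β : Equiv.Perm ι
  /-- next occurrence -/
  γ : Equiv.Perm ι
  /-- sign of the literal -/
  sg : ι → Bool

/-- First terminal of the strand which is closed when the variable is true (for sign `b`), or
when the variable is false (for sign `!b`). -/
def T0 (b : Bool) : Fin 12 := bif b then 3 else 6

/-- Second terminal of this strand. -/
def T1 (b : Bool) : Fin 12 := bif b then 4 else 7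

/-- How a switch joins its own terminals, according to the states of octagon and square. -/
def sig (y z : Bool) : Fin 12 → Fin 12
  | 0 => bif y then 7 else 1
  | 1 => bif y then 2 else 0
  | 2 => bif y then 1 else 3
  | 3 => bif y then 4 else 2
  | 4 => bif y then 3 else 5
  | 5 => bif y then 6 else 4
  | 6 => bif y then 5 else 7
  | 7 => bif y then 0 else 6
  | 8 => bif z then 11 else 9
  | 9 => bif z then 10 else 8
  | 10 => bif z then 9 else 11
  | 11 => bif z then 8 else 10

/-- One neighbour of a terminal in its cluster (a cycle of length 8 or 4). -/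
def nb1 : Fin 12 → Fin 12
  | 0 => 1
  | 1 => 2
  | 2 => 3
  | 3 => 4
  | 4 => 5
  | 5 => 6
  | 6 => 7
  | 7 => 0
  | 8 => 9
  | 9 => 10
  | 10 => 11
  | 11 => 8

/-- The other neighbour. -/
def nb2 : Fin 12 → Fin 12
  | 0 => 7
  | 1 => 0
  | 2 => 1
  | 3 => 2
  | 4 => 3
  | 5 => 4
  | 6 => 5
  | 7 => 6
  | 8 => 11
  | 9 => 8
  | 10 => 9
  | 11 => 10

theorem sig_sig : ∀ y z t, sig y z (sig y z t) = t := by decide

theorem sig_ne : ∀ y z t, sig y z t ≠ t := by decide

theorem sig_nb : ∀ y z t, sig y z t = nb1 t ∨ sig y z t = nb2 t := by decide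

theorem nb_ne : ∀ t, nb1 t ≠ nb2 t := by decide

theorem nb1_ne : ∀ t, nb1 t ≠ t := by decide

theorem nb2_ne : ∀ t, nb2 t ≠ t := by decide

theorem nb2_nb1 : ∀ t, nb2 (nb1 t) = t := by decide

theorem nb1_nb2 : ∀ t, nb1 (nb2 t) = t := by decide

namespace Sys

variable {ι : Type*} (s : Sys ι)

/-- The involution joining terminals of different switches. -/
def M : ι × Fin 12 → ι × Fin 12
  | (k, 0) => (s.α.symm k, 1)
  | (k, 1) => (s.α k, 0)
  | (k, 2) => (k, 8)
  | (k, 3) => bif s.sg k then (s.β k, T0 (!s.sg (s.β k))) else (s.β.symm k, T0 (s.sg (s.β.symm k)))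
  | (k, 4) => bif s.sg k then (s.β k, T1 (!s.sg (s.β k))) else (s.β.symm k, T1 (s.sg (s.β.symm k)))
  | (k, 5) => (k, 10)
  | (k, 6) => bif s.sg k then (s.β.symm k, T0 (s.sg (s.β.symm k))) else (s.β k, T0 (!s.sg (s.β k)))
  | (k, 7) => bif s.sg k then (s.β.symm k, T1 (s.sg (s.β.symm k))) else (s.β k, T1 (!s.sg (s.β k)))
  | (k, 8) => (k, 2)
  | (k, 9) => (s.γ k, 11)
  | (k, 10) => (k, 5)
  | (k, 11) => (s.γ.symm k, 9)

/-- The involution inside the switches. -/
def S (y z : ι → Bool) (p : ι × Fin 12) : ι × Fin 12 := (p.1, sig (y p.1) (z p.1) p.2)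

@[simp] theorem M0 (k : ι) : s.M (k, 0) = (s.α.symm k, 1) := rfl
@[simp] theorem M1 (k : ι) : s.M (k, 1) = (s.α k, 0) := rfl
@[simp] theorem M2 (k : ι) : s.M (k, 2) = (k, 8) := rfl
@[simp] theorem M5 (k : ι) : s.M (k, 5) = (k, 10) := rfl
@[simp] theorem M8 (k : ι) : s.M (k, 8) = (k, 2) := rfl
@[simp] theorem M9 (k : ι) : s.M (k, 9) = (s.γ k, 11) := rfl
@[simp] theorem M10 (k : ι) : s.M (k, 10) = (k, 5) := rfl
@[simp] theorem M11 (k : ι) : s.M (k, 11) = (s.γ.symm k, 9) := rfl

theorem M_T0 (k : ι) : s.M (k, T0 (s.sg k)) = (s.β k, T0 (!s.sg (s.β k))) := by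
  cases h : s.sg k <;> simp [T0, M, h]

theorem M_T1 (k : ι) : s.M (k, T1 (s.sg k)) = (s.β k, T1 (!s.sg (s.β k))) := by
  cases h : s.sg k <;> simp [T1, M, h]

theorem M_F0 (k : ι) : s.M (k, T0 (!s.sg k)) = (s.β.symm k, T0 (s.sg (s.β.symm k))) := by
  cases h : s.sg k <;> simp [T0, M, h]

theorem M_F1 (k : ι) : s.M (k, T1 (!s.sg k)) = (s.β.symm k, T1 (s.sg (s.β.symm k))) := by
  cases h : s.sg k <;> simp [T1, M, h]

theorem terminal_cases (b : Bool) (t : Fin 12) : t = 0 ∨ t = 1 ∨ t = 2 ∨ t = 5 ∨ t = 8 ∨ t = 9 ∨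
    t = 10 ∨ t = 11 ∨ t = T0 b ∨ t = T1 b ∨ t = T0 (!b) ∨ t = T1 (!b) := by
  revert b t
  decide

theorem M_invol : Function.Involutive s.M := by
  rintro ⟨k, t⟩
  rcases terminal_cases (s.sg k) t with h | h | h | h | h | h | h | h | h | h | h | h <;> subst h
  · simp
  · simp
  · simp
  · simp
  · simp
  · simp
  · simp
  · simp
  · rw [M_T0, M_F0]; simp
  · rw [M_T1, M_F1]; simp
  · rw [M_F0, M_T0]; simp
  · rw [M_F1, M_T1]; simp

theorem T0_ne : ∀ b : Bool, T0 b ≠ T0 (!b) := by decide

theorem T1_ne : ∀ b : Bool, T1 b ≠ T1 (!b) := by decide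

theorem M_ne (p : ι × Fin 12) : s.M p ≠ p := by
  obtain ⟨k, t⟩ := p
  intro h
  rcases terminal_cases (s.sg k) t with h1 | h1 | h1 | h1 | h1 | h1 | h1 | h1 | h1 | h1 | h1 | h1 <;>
    subst h1
  · simp at h
  · simp at h
  · simp at h
  · simp at h
  · simp at h
  · simp at h
  · simp at h
  · simp at h
  · rw [M_T0, Prod.mk.injEq] at h
    exact T0_ne _ (by rw [← h.2, h.1])
  · rw [M_T1, Prod.mk.injEq] at h
    exact T1_ne _ (by rw [← h.2, h.1])
  · rw [M_F0, Prod.mk.injEq] at h
    exact T0_ne (!s.sg k) (by rw [← h.2, h.1, Bool.not_not])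
  · rw [M_F1, Prod.mk.injEq] at h
    exact T1_ne (!s.sg k) (by rw [← h.2, h.1, Bool.not_not])

theorem S_invol (y z : ι → Bool) : Function.Involutive (S y z) := fun p => by simp [S, sig_sig]

theorem S_ne (y z : ι → Bool) (p : ι × Fin 12) : S y z p ≠ p := fun h =>
  sig_ne _ _ _ (congrArg Prod.snd h)

/-- If every clause has a true literal and the values are consistent then, for suitable states of
the squares, the alternating cycles merge into one. -/
theorem exists_conn [Fintype ι] [DecidableEq ι] (y : ι → Bool)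
    (hβ : ∀ k, (y (s.β k) == s.sg (s.β k)) = (y k == s.sg k))
    (hα : ∀ k, ∃ j, y j = true ∧ ∃ n : ℕ, (s.α^[n]) (s.α j) = k)
    (hγ : ∀ j k, ∃ n : ℕ, (s.γ^[n]) j = k) :
    ∃ z, ∀ p q : ι × Fin 12, Conn s.M (S y z) p q := by
  obtain ⟨z, hz⟩ := exists_free (M := s.M) (fun z => S y z)
    (fun k i => (k, (⟨8 + i.1, by omega⟩ : Fin 12))) s.M_invol s.M_ne (S_invol y) (S_ne y)
    (fun z k hk => by simp [S, hk, sig]) (fun z k hk => by simp [S, hk, sig])
    (fun z k x hx => by
      obtain ⟨j, t⟩ := x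
      by_cases hj : j = k
      · subst hj
        have ht : t.1 < 8 := by
          by_contra ht
          refine hx ⟨t.1 - 8, by omega⟩ ?_
          ext
          · rfl
          · simp; omega
        have key : ∀ (a b c : Bool) (t : Fin 12), t.1 < 8 → sig a b t = sig a c t := by decide
        simp only [S]
        rw [key _ _ _ _ ht]
      · simp [S, Function.update_of_ne hj])
  refine ⟨z, ?_⟩
  have hM := fun p => Conn.left (M := s.M) (S := S y z) p
  have hS := fun p => Conn.right (M := s.M) (S := S y z) p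
  rcases isEmpty_or_nonempty ι with hι | ⟨⟨k₀⟩⟩
  · exact fun p => (IsEmpty.false p.1).elim
  -- the free terminals
  have hfree : ∀ k i j, 8 ≤ i.1 → 8 ≤ j.1 → Conn s.M (S y z) (k, i) (k, j) := by
    intro k i j hi hj
    have h := hz k ⟨i.1 - 8, by omega⟩ ⟨j.1 - 8, by omega⟩
    have hi' : (⟨8 + (i.1 - 8), by omega⟩ : Fin 12) = i := Fin.ext (by simp; omega)
    have hj' : (⟨8 + (j.1 - 8), by omega⟩ : Fin 12) = j := Fin.ext (by simp; omega)
    simpa only [hi', hj'] using h
  have h8γ : ∀ k, Conn s.M (S y z) (k, 8) (s.γ k, 8) := fun k =>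
    ((hfree k 8 9 (by decide) (by decide)).trans (hM (k, 9))).trans
      (hfree (s.γ k) 11 8 (by decide) (by decide))
  have h8n : ∀ (n : ℕ) k, Conn s.M (S y z) (k, 8) ((s.γ^[n]) k, 8) := by
    intro n
    induction n with
    | zero => exact fun k => Conn.refl _
    | succ n ih => exact fun k => (h8γ k).trans (ih (s.γ k))
  have h8 : ∀ k, Conn s.M (S y z) (k₀, 8) (k, 8) := fun k => by
    obtain ⟨n, rfl⟩ := hγ k₀ k
    exact h8n n k₀
  have h10 : ∀ k, Conn s.M (S y z) (k₀, 8) (k, 10) := fun k =>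
    (h8 k).trans (hfree k 8 10 (by decide) (by decide))
  have h9 : ∀ k, Conn s.M (S y z) (k₀, 8) (k, 9) := fun k =>
    (h8 k).trans (hfree k 8 9 (by decide) (by decide))
  have h11 : ∀ k, Conn s.M (S y z) (k₀, 8) (k, 11) := fun k =>
    (h8 k).trans (hfree k 8 11 (by decide) (by decide))
  have h2 : ∀ k, Conn s.M (S y z) (k₀, 8) (k, 2) := fun k => (h8 k).trans (hM (k, 8))
  have h5 : ∀ k, Conn s.M (S y z) (k₀, 8) (k, 5) := fun k => (h10 k).trans (hM (k, 10))
  -- the clause strands
  have hα0 : ∀ j, y j = true → Conn s.M (S y z) (k₀, 8) (s.α j, 0) := fun j hj => by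
    have h12 : Conn s.M (S y z) (j, 1) (j, 2) := by
      have := hS (j, 1)
      simpa [S, sig, hj] using this
    exact (h2 j).trans (h12.symm.trans (hM (j, 1)))
  have hα1 : ∀ j, Conn s.M (S y z) (k₀, 8) (j, 0) → Conn s.M (S y z) (k₀, 8) (s.α j, 0) := by
    intro j hj
    cases hyj : y j with
    | true => exact hα0 j hyj
    | false =>
      have h01 : Conn s.M (S y z) (j, 0) (j, 1) := by
        have := hS (j, 0)
        simpa [S, sig, hyj] using this
      exact hj.trans (h01.trans (hM (j, 1)))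
  have h0 : ∀ k, Conn s.M (S y z) (k₀, 8) (k, 0) := by
    intro k
    obtain ⟨j, hj, n, rfl⟩ := hα k
    have : ∀ n : ℕ, ∀ i, Conn s.M (S y z) (k₀, 8) (i, 0) →
        Conn s.M (S y z) (k₀, 8) ((s.α^[n]) i, 0) := by
      intro n
      induction n with
      | zero => exact fun i hi => hi
      | succ n ih => exact fun i hi => ih _ (hα1 i hi)
    exact this n _ (hα0 j hj)
  have h1 : ∀ k, Conn s.M (S y z) (k₀, 8) (k, 1) := fun k =>
    (h0 (s.α k)).trans (hM (k, 1)).symm
  -- the open variable strands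
  have hopen : ∀ k, Conn s.M (S y z) (k₀, 8) (k, T0 (!(y k))) ∧
      Conn s.M (S y z) (k₀, 8) (k, T1 (!(y k))) := by
    intro k
    cases hyk : y k with
    | false =>
      have h3 : Conn s.M (S y z) (k, 2) (k, 3) := by
        have := hS (k, 2)
        simpa [S, sig, hyk] using this
      have h4 : Conn s.M (S y z) (k, 5) (k, 4) := by
        have := hS (k, 5)
        simpa [S, sig, hyk] using this
      exact ⟨(h2 k).trans h3, (h5 k).trans h4⟩
    | true =>
      have h6 : Conn s.M (S y z) (k, 5) (k, 6) := by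
        have := hS (k, 5)
        simpa [S, sig, hyk] using this
      have h7 : Conn s.M (S y z) (k, 0) (k, 7) := by
        have := hS (k, 0)
        simpa [S, sig, hyk] using this
      exact ⟨(h5 k).trans h6, (h0 k).trans h7⟩
  have hT0 : ∀ k, Conn s.M (S y z) (k₀, 8) (k, T0 (s.sg k)) ∧
      Conn s.M (S y z) (k₀, 8) (k, T1 (s.sg k)) := by
    intro k
    by_cases hk : s.sg k = !(y k)
    · rw [hk]
      exact hopen k
    · have h3 : (!s.sg (s.β k)) = !(y (s.β k)) := by
        have := hβ k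
        cases h4 : s.sg k <;> cases h5 : y k <;> cases h6 : s.sg (s.β k) <;>
          cases h7 : y (s.β k) <;> simp_all
      have h4 := hopen (s.β k)
      rw [← h3, ← M_T0, ← M_T1] at h4
      exact ⟨h4.1.trans (hM _).symm, h4.2.trans (hM _).symm⟩
  have hF0 : ∀ k, Conn s.M (S y z) (k₀, 8) (k, T0 (!s.sg k)) ∧
      Conn s.M (S y z) (k₀, 8) (k, T1 (!s.sg k)) := by
    intro k
    have h4 := hT0 (s.β.symm k)
    have h5 := s.M_T0 (s.β.symm k)
    have h6 := s.M_T1 (s.β.symm k)
    rw [Equiv.apply_symm_apply] at h5 h6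
    rw [← h5, ← h6]
    exact ⟨h4.1.trans (hM _), h4.2.trans (hM _)⟩
  have hall : ∀ p, Conn s.M (S y z) (k₀, 8) p := by
    rintro ⟨k, t⟩
    rcases terminal_cases (s.sg k) t with h | h | h | h | h | h | h | h | h | h | h | h <;> subst h
    · exact h0 k
    · exact h1 k
    · exact h2 k
    · exact h5 k
    · exact h8 k
    · exact h9 k
    · exact h10 k
    · exact h11 k
    · exact (hT0 k).1
    · exact (hT0 k).2
    · exact (hF0 k).1
    · exact (hF0 k).2
  exact fun p q => (hall p).symm.trans (hall q)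

end Sys

end Pool.Agent.H679R2
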